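import Pool.Agent.Helper86.CY.TanSpan

/-!
# Projection onto the tangent space of the variety of planes (piece CY-9)
-/

namespace Pool.Agent.Helper86.CY

open MvPolynomial Pool.Agent.Helper76.CY

theorem tri_sum_left {K R ι : Type*} [CommRing K] [CommRing R] [Algebra K R] (D : Ten K)
    (s : Finset ι) (x : ι → Fin 10 → R) (y z : Fin 10 → R) :
    tri D (∑ q ∈ s, x q) y z = ∑ q ∈ s, tri D (x q) y z := by
  classical
  induction s using Finset.induction_on with
  | empty => simp
  | insert a s ha ih => rw [Finset.sum_insert ha, Finset.sum_insert ha, tri_add_left, ih]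

theorem lin_sub {ι K : Type*} [Fintype ι] [DecidableEq ι] [Field K] (φ ψ : (ι → K) →ₗ[K] K) :
    lin (φ - ψ) = lin φ - lin ψ := by
  simp only [lin, LinearMap.sub_apply, C_sub, sub_mul, Finset.sum_sub_distrib]

theorem lin_add {ι K : Type*} [Fintype ι] [DecidableEq ι] [Field K] (φ ψ : (ι → K) →ₗ[K] K) :
    lin (φ + ψ) = lin φ + lin ψ := by
  simp only [lin, LinearMap.add_apply, C_add, add_mul, Finset.sum_add_distrib]

theorem lin_smul {ι K : Type*} [Fintype ι] [DecidableEq ι] [Field K] (c : K)
    (φ : (ι → K) →ₗ[K] K) : lin (c • φ) = C c * lin φ := by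
  simp only [lin, LinearMap.smul_apply, smul_eq_mul, C_mul, mul_assoc, Finset.mul_sum]

theorem lin_zero {ι K : Type*} [Fintype ι] [DecidableEq ι] [Field K] :
    lin (0 : (ι → K) →ₗ[K] K) = 0 := by
  simp [lin]

theorem lin_proj {ι K : Type*} [Fintype ι] [DecidableEq ι] [Field K] (q : ι) :
    lin (LinearMap.proj q : (ι → K) →ₗ[K] K) = X q := by
  rw [lin, Finset.sum_eq_single q]
  · simp
  · intro b _ hb
    simp [Ne.symm hb]
  · simp

/-- The polynomial of the linear form `qL`. -/
theorem lin_qL {K : Type*} [Field K] (D : Ten K) (i j k : Fin 3) :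
    lin (qL D i j k) = tri D (tv (X : Idx → MvPolynomial Idx K) i) (bv _ (c3 j))
      (bv _ (c3 k)) := by
  have hb : ∀ l : Fin 10, (bv (MvPolynomial Idx K) l) =
      fun m => (Algebra.ofId K (MvPolynomial Idx K)) (bv K l m) := by
    intro l
    funext m
    rw [bv_apply, bv_apply]
    split_ifs <;> simp
  have ht : tv (X : Idx → MvPolynomial Idx K) i = ∑ q : Idx, (X q : MvPolynomial Idx K) •
      (fun m => (Algebra.ofId K (MvPolynomial Idx K)) (tv (Pi.single q (1 : K)) i m)) := by
    funext m
    rw [Finset.sum_apply]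
    simp only [Pi.smul_apply, smul_eq_mul]
    by_cases hm : (m : ℕ) < 3
    · simp [tv, hm]
    · simp only [tv, hm, dif_neg, not_false_eq_true]
      rw [Finset.sum_eq_single (i, (⟨(m : ℕ) - 3, by omega⟩ : Fin 7))]
      · simp
      · intro b _ hbne
        simp [Ne.symm hbne]
      · simp
  rw [ht, tri_sum_left, lin]
  refine Finset.sum_congr rfl fun q _ => ?_
  rw [tri_smul_left, hb (c3 j), hb (c3 k), ← tri_map, mul_comm]
  rfl

theorem window_zero3 {K : Type*} [Field K] (D : Ten K) (hD : Window D) (i j k : Fin 3) :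
    D (c3 i) (c3 j) (c3 k) = 0 := by
  have h : ∀ i j k : Fin 3, i ≤ j → j ≤ k → D (c3 i) (c3 j) (c3 k) = 0 := by
    intro i j k hij hjk
    refine hD.zero _ _ _ ?_ ?_ ?_ ?_
    · change (i : ℕ) ≤ (j : ℕ)
      exact hij
    · change (j : ℕ) ≤ (k : ℕ)
      exact hjk
    · rw [Fin.le_def]
      simp only [c3, Fin.val_castLE]
      have := k.isLt
      change (k : ℕ) ≤ 3
      omega
    · rintro ⟨-, hj, -⟩
      have h1 := congrArg Fin.val hj
      simp only [c3, Fin.val_castLE] at h1
      have := j.isLt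
      change (j : ℕ) = 3 at h1
      omega
  have s12 := hD.swap12
  have s23 := hD.swap23
  rcases le_total i j with hij | hij <;> rcases le_total j k with hjk | hjk <;>
    rcases le_total i k with hik | hik
  · exact h i j k hij hjk
  · exact h i j k hij hjk
  · rw [s23]
    exact h i k j hik hjk
  · rw [s23, s12]
    exact h k i j hik hij
  · rw [s12]
    exact h j i k hij hik
  · rw [s12, s23]
    exact h j k i hjk hik
  · rw [s23, s12, s23]
    exact h k j i hjk hij
  · rw [s23, s12, s23]
    exact h k j i hjk hij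

theorem qL_smulAdd {K : Type*} [Field K] (D : Ten K) (i j k : Fin 3) (τ : Idx → K) :
    qL D i j k τ = tri D (tv τ i) (bv K (c3 j)) (bv K (c3 k)) := rfl

/-- The linear form `tanVal D · i j k`. -/
def tanL {K : Type*} [Field K] (D : Ten K) (i j k : Fin 3) : (Idx → K) →ₗ[K] K :=
  qL D i j k + qL D j i k + qL D k i j

theorem tanL_apply {K : Type*} [Field K] (D : Ten K) (hD : Window D) (i j k : Fin 3)
    (τ : Idx → K) : tanL D i j k τ = tanVal D τ i j k := by
  rw [tanVal_eq D hD]
  rfl

theorem X_mem_vars {ι K : Type*} [Field K] (q : ι) :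
    (X q : MvPolynomial ι K) ∈ idealOfVars ι K := by
  rw [idealOfVars]
  exact Ideal.subset_span ⟨q, rfl⟩

theorem tv_mem_vars {K : Type*} [Field K] (i : Fin 3) (m : Fin 10) :
    tv (X : Idx → MvPolynomial Idx K) i m ∈ idealOfVars Idx K := by
  rw [tv]
  split_ifs
  · exact zero_mem _
  · exact X_mem_vars _

theorem lin_tanL_mem {K : Type*} [Field K] (D : Ten K) (hD : Window D)
    (I : Ideal (MvPolynomial Idx K))
    (hI : ∀ i j k : Fin 3, tri D (row X i) (row X j) (row X k) ∈ I) (i j k : Fin 3) :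
    lin (tanL D i j k) ∈ I ⊔ idealOfVars Idx K ^ 2 := by
  set R := MvPolynomial Idx K
  set t : Fin 3 → Fin 10 → R := fun i => tv (X : Idx → R) i with ht
  set b : Fin 3 → Fin 10 → R := fun i => bv R (c3 i) with hb
  have key : ∀ i j k : Fin 3, tri D (t i) (t j) (b k) ∈ idealOfVars Idx K ^ 2 := by
    intro i j k
    rw [pow_two]
    exact tri_mem_mul_left_mid D _ _ (tv_mem_vars i) (tv_mem_vars j) _
  have key2 : tri D (t i) (t j) (t k) ∈ idealOfVars Idx K ^ 2 := by
    rw [pow_two]
    exact tri_mem_mul_left_mid D _ _ (tv_mem_vars i) (tv_mem_vars j) _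
  have h0 : tri D (b i) (b j) (b k) = 0 := by
    rw [hb]
    simp only
    rw [tri_bv, window_zero3 D hD, map_zero]
  have e1 : tri D (t i) (b j) (t k) = tri D (t i) (t k) (b j) := tri_swap23 hD.swap23 _ _ _
  have e2 : tri D (b i) (t j) (t k) = tri D (t j) (t k) (b i) := by
    rw [tri_swap12 hD.swap12, tri_swap23 hD.swap23]
  have f1 : tri D (b i) (t j) (b k) = tri D (t j) (b i) (b k) := tri_swap12 hD.swap12 _ _ _
  have f2 : tri D (b i) (b j) (t k) = tri D (t k) (b i) (b j) := by
    rw [tri_swap23 hD.swap23, tri_swap12 hD.swap12]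
  have hlin : lin (tanL D i j k) = tri D (t i) (b j) (b k) + tri D (t j) (b i) (b k) +
      tri D (t k) (b i) (b j) := by
    rw [tanL, lin_add, lin_add, lin_qL, lin_qL, lin_qL]
  have hexp : tri D (row X i) (row X j) (row X k) =
      tri D (b i) (b j) (b k) + lin (tanL D i j k) + (tri D (t i) (t j) (b k) +
        tri D (t i) (t k) (b j) + tri D (t j) (t k) (b i) + tri D (t i) (t j) (t k)) := by
    rw [hlin]
    have hr : ∀ i, row (X : Idx → R) i = b i + t i := fun i => rfl
    rw [hr, hr, hr]
    simp only [tri_add_left, tri_add_mid, tri_add_right]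
    rw [e1, e2, f1, f2]
    ring
  have hfin : lin (tanL D i j k) = tri D (row X i) (row X j) (row X k) -
      (tri D (t i) (t j) (b k) + tri D (t i) (t k) (b j) + tri D (t j) (t k) (b i) +
        tri D (t i) (t j) (t k)) := by
    rw [hexp, h0]
    ring
  rw [hfin]
  refine sub_mem (Ideal.mem_sup_left (hI i j k)) (Ideal.mem_sup_right ?_)
  exact add_mem (add_mem (add_mem (key i j k) (key i k j)) (key j k i)) key2

/-- The map `c ↦ s(c)`. -/
noncomputable def sL {K : Type*} [Field K] (N : (Fin 3 → Fin 3 → K) →ₗ[K] (Fin 10 → K)) :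
    (Fin 3 → Fin 3 → Fin 3 → K) →ₗ[K] (Idx → K) where
  toFun c q := (1 / 3 : K) * N (c q.1) ⟨(q.2 : ℕ) + 3, by omega⟩
  map_add' a b := by
    funext q
    simp only [Pi.add_apply, map_add]
    ring
  map_smul' c a := by
    funext q
    simp only [Pi.smul_apply, map_smul, smul_eq_mul, RingHom.id_apply]
    ring

theorem tv_sL {K : Type*} [Field K] (N : (Fin 3 → Fin 3 → K) →ₗ[K] (Fin 10 → K))
    (hN : ∀ q, N q 0 = 0 ∧ N q 1 = 0 ∧ N q 2 = 0 ∧ N q 3 = 0) (c : Fin 3 → Fin 3 → Fin 3 → K)
    (i : Fin 3) : tv (sL N c) i = (1 / 3 : K) • N (c i) := by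
  funext m
  rw [tv, Pi.smul_apply, smul_eq_mul]
  split_ifs with hm
  · have : N (c i) m = 0 := by
      have h := hN (c i)
      have hm' : m = 0 ∨ m = 1 ∨ m = 2 := by
        rcases m with ⟨m, hmm⟩
        simp only at hm
        interval_cases m
        · exact Or.inl rfl
        · exact Or.inr (Or.inl rfl)
        · exact Or.inr (Or.inr rfl)
      rcases hm' with rfl | rfl | rfl
      · exact h.1
      · exact h.2.1
      · exact h.2.2.1
    rw [this, mul_zero]
  · change (1 / 3 : K) * N (c i) _ = _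
    congr 1
    refine congrArg (N (c i)) (Fin.ext ?_)
    change (m : ℕ) - 3 + 3 = m
    omega

/-- The map `τ ↦ (tanVal D τ i j k)`. -/
noncomputable def phiL {K : Type*} [Field K] (D : Ten K) :
    (Idx → K) →ₗ[K] (Fin 3 → Fin 3 → Fin 3 → K) :=
  LinearMap.pi fun i => LinearMap.pi fun j => LinearMap.pi fun k => tanL D i j k

theorem tangent_proj_of_section {K : Type*} [Field K] [CharZero K] (D : Ten K) (hD : Window D)
    (hsec : ∃ N : (Fin 3 → Fin 3 → K) →ₗ[K] (Fin 10 → K),
      (∀ q, N q 0 = 0 ∧ N q 1 = 0 ∧ N q 2 = 0 ∧ N q 3 = 0) ∧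
      ∀ q, (∀ i j, q i j = q j i) →
        ∀ i j, tri D (N q) (bv K (c3 i)) (bv K (c3 j)) = q i j) :
    ∃ π : (Idx → K) →ₗ[K] (Idx → K), (∀ v i j k, tanVal D (π v) i j k = 0) ∧
      ∀ I : Ideal (MvPolynomial Idx K),
        (∀ i j k : Fin 3, tri D (row X i) (row X j) (row X k) ∈ I) →
        ∀ q, X q - linMap π q ∈ I ⊔ idealOfVars Idx K ^ 2 := by
  obtain ⟨N, hN0, hN⟩ := hsec
  refine ⟨LinearMap.id - (sL N) ∘ₗ (phiL D), ?_, ?_⟩
  · intro v i j k
    rw [← tanL_apply D hD, LinearMap.sub_apply, map_sub]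
    set c := phiL D v with hc
    have hcv : ∀ i j k, c i j k = tanL D i j k v := fun i j k => rfl
    have s23 : ∀ i j k, c i j k = c i k j := by
      intro i j k
      rw [hcv, hcv]
      simp only [tanL, LinearMap.add_apply]
      rw [qL_symm D hD i j k]
      ring
    have s12 : ∀ i j k, c i j k = c j i k := by
      intro i j k
      rw [hcv, hcv]
      simp only [tanL, LinearMap.add_apply]
      rw [qL_symm D hD k i j]
      ring
    have hq : ∀ i j k, qL D i j k (sL N c) = (1 / 3 : K) * c i j k := by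
      intro i j k
      rw [qL_smulAdd, tv_sL N hN0, tri_smul_left, hN (c i) (fun a b => s23 i a b)]
    have h3 : tanL D i j k (sL N c) = c i j k := by
      simp only [tanL, LinearMap.add_apply, hq]
      rw [s12 j i k, s12 k i j, s23 i k j]
      ring
    change tanL D i j k v - tanL D i j k (sL N c) = 0
    rw [h3, hcv, sub_self]
  · intro I hI q
    have h1 : linMap (LinearMap.id - (sL N) ∘ₗ (phiL D)) q = X q -
        lin ((LinearMap.proj q).comp ((sL N) ∘ₗ (phiL D))) := by
      rw [linMap, LinearMap.comp_sub, lin_sub, LinearMap.comp_id, lin_proj]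
    rw [h1, sub_sub_cancel]
    have h2 : (LinearMap.proj q).comp ((sL N) ∘ₗ (phiL D)) =
        ∑ i : Fin 3, ∑ j : Fin 3, ∑ k : Fin 3,
          (sL N (Pi.single i (Pi.single j (Pi.single k 1))) q) • tanL D i j k := by
      apply LinearMap.ext
      intro v
      have hv : phiL D v = ∑ i : Fin 3, ∑ j : Fin 3, ∑ k : Fin 3,
          (tanL D i j k v) • (Pi.single i (Pi.single j (Pi.single k (1 : K))) :
            Fin 3 → Fin 3 → Fin 3 → K) := by
        funext a b c
        simp only [Finset.sum_apply, Pi.smul_apply]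
        rw [Finset.sum_eq_single a, Finset.sum_eq_single b, Finset.sum_eq_single c]
        · simp [phiL]
        · intro x _ hx
          simp [Ne.symm hx]
        · simp
        · intro x _ hx
          refine Finset.sum_eq_zero fun y _ => ?_
          simp [Ne.symm hx]
        · simp
        · intro x _ hx
          refine Finset.sum_eq_zero fun y _ => Finset.sum_eq_zero fun z _ => ?_
          simp [Ne.symm hx]
        · simp
      simp only [LinearMap.comp_apply]
      rw [hv]
      simp only [map_sum, map_smul, LinearMap.sum_apply, LinearMap.smul_apply,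
        LinearMap.proj_apply, smul_eq_mul]
      refine Finset.sum_congr rfl fun i _ => Finset.sum_congr rfl fun j _ =>
        Finset.sum_congr rfl fun k _ => ?_
      ring
    rw [h2]
    have lin_sum : ∀ (f : Fin 3 → ((Idx → K) →ₗ[K] K)),
        (∀ x, lin (f x) ∈ I ⊔ idealOfVars Idx K ^ 2) →
        lin (∑ x, f x) ∈ I ⊔ idealOfVars Idx K ^ 2 := by
      intro f hf
      rw [Fin.sum_univ_three, lin_add, lin_add]
      exact add_mem (add_mem (hf 0) (hf 1)) (hf 2)
    refine lin_sum _ fun i => lin_sum _ fun j => lin_sum _ fun k => ?_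
    rw [lin_smul]
    exact Ideal.mul_mem_left _ _ (lin_tanL_mem D hD I hI i j k)

end Pool.Agent.Helper86.CY
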