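import Pool.Agent.Helper86.CY.TanProj

/-!
# The residual plane: solution of the linear system (piece CY-11)
-/

namespace Pool.Agent.Helper86.CY

open MvPolynomial Pool.Agent.Helper76.CY

/-- The six pairs `i ≤ j`. -/
def P6 : Fin 6 → Fin 3 × Fin 3 := ![(0, 0), (0, 1), (0, 2), (1, 1), (1, 2), (2, 2)]

/-- The indices `4, ..., 9`. -/
def s6 (k : Fin 6) : Fin 10 := ⟨(k : ℕ) + 4, by omega⟩

/-- Extension of a vector by four zeros. -/
def ext6 {R : Type*} [Zero R] (x : Fin 6 → R) : Fin 10 → R := fun j =>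
  if h : (j : ℕ) < 4 then 0 else x ⟨(j : ℕ) - 4, by omega⟩

theorem ext6_eq {R : Type*} [CommRing R] (x : Fin 6 → R) :
    ext6 x = ∑ k, x k • bv R (s6 k) := by
  funext j
  rw [Finset.sum_apply, ext6]
  simp only [Pi.smul_apply, smul_eq_mul, bv_apply]
  split_ifs with h
  · symm
    refine Finset.sum_eq_zero fun k _ => ?_
    rw [if_neg, mul_zero]
    rintro rfl
    simp only [s6] at h
    omega
  · rw [Finset.sum_eq_single (⟨(j : ℕ) - 4, by omega⟩ : Fin 6)]
    · rw [if_pos, mul_one]
      apply Fin.ext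
      simp only [s6]
      omega
    · intro b _ hb
      rw [if_neg, mul_zero]
      rintro rfl
      apply hb
      apply Fin.ext
      simp only [s6]
      omega
    · simp

theorem tri_ext6 {K R : Type*} [CommRing K] [CommRing R] [Algebra K R] (D : Ten K)
    (x : Fin 6 → R) (y z : Fin 10 → R) :
    tri D (ext6 x) y z = ∑ k, x k * tri D (bv R (s6 k)) y z := by
  rw [ext6_eq, tri_sum_left]
  exact Finset.sum_congr rfl fun k _ => tri_smul_left D _ _ _ _

theorem ext6_low {R : Type*} [Zero R] (x : Fin 6 → R) :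
    ext6 x 0 = 0 ∧ ext6 x 1 = 0 ∧ ext6 x 2 = 0 ∧ ext6 x 3 = 0 := by
  refine ⟨?_, ?_, ?_, ?_⟩ <;> simp [ext6]

theorem ext6_s6 {R : Type*} [Zero R] (x : Fin 6 → R) (k : Fin 6) : ext6 x (s6 k) = x k := by
  have h : ¬ ((s6 k : Fin 10) : ℕ) < 4 := by
    simp only [s6]
    omega
  rw [ext6, dif_neg h]
  congr 1

theorem low_cases (j : Fin 10) (h : (j : ℕ) < 4) : j = 0 ∨ j = 1 ∨ j = 2 ∨ j = 3 := by
  rcases j with ⟨j, hj⟩
  simp only at h
  interval_cases j
  · exact Or.inl rfl
  · exact Or.inr (Or.inl rfl)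
  · exact Or.inr (Or.inr (Or.inl rfl))
  · exact Or.inr (Or.inr (Or.inr rfl))

theorem eq_ext6 {R : Type*} [Zero R] (m : Fin 10 → R) (h0 : m 0 = 0) (h1 : m 1 = 0)
    (h2 : m 2 = 0) (h3 : m 3 = 0) : m = ext6 (fun k => m (s6 k)) := by
  funext j
  rw [ext6]
  split_ifs with h
  · rcases low_cases j h with rfl | rfl | rfl | rfl <;> assumption
  · congr 1
    apply Fin.ext
    simp only [s6]
    omega

theorem all_of_P6 {R : Type*} (f : Fin 3 → Fin 3 → R) (hf : ∀ i j, f i j = f j i) (r : R)
    (h : ∀ p, f (P6 p).1 (P6 p).2 = r) (i j : Fin 3) : f i j = r := by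
  have e00 : f 0 0 = r := h 0
  have e01 : f 0 1 = r := h 1
  have e02 : f 0 2 = r := h 2
  have e11 : f 1 1 = r := h 3
  have e12 : f 1 2 = r := h 4
  have e22 : f 2 2 = r := h 5
  fin_cases i <;> fin_cases j
  · exact e00
  · exact e01
  · exact e02
  · exact (hf 1 0).trans e01
  · exact e11
  · exact e12
  · exact (hf 2 0).trans e02
  · exact (hf 2 1).trans e12
  · exact e22

theorem window_zero33 {K : Type*} [Field K] (D : Ten K) (hD : Window D) (i j : Fin 3) :
    D 3 (c3 i) (c3 j) = 0 := by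
  have h : ∀ i j : Fin 3, i ≤ j → D 3 (c3 i) (c3 j) = 0 := by
    intro i j hij
    rw [hD.swap12, hD.swap23]
    refine hD.zero _ _ _ ?_ ?_ le_rfl ?_
    · change (i : ℕ) ≤ (j : ℕ)
      exact hij
    · change (j : ℕ) ≤ 3
      omega
    · rintro ⟨-, hj, -⟩
      have h1 := congrArg Fin.val hj
      change (j : ℕ) = 3 at h1
      omega
  rcases le_total i j with hij | hij
  · exact h i j hij
  · rw [hD.swap23]
    exact h j i hij

/-- The matrix of the linear system. -/
def matA {K R : Type*} [CommRing K] [CommRing R] [Algebra K R] (D : Ten K)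
    (u : Fin 3 → Fin 10 → R) : Matrix (Fin 6) (Fin 6) R :=
  fun p k => tri D (bv R (s6 k)) (u (P6 p).1) (u (P6 p).2)

theorem matA_mulVec {K R : Type*} [CommRing K] [CommRing R] [Algebra K R] (D : Ten K)
    (u : Fin 3 → Fin 10 → R) (x : Fin 6 → R) (p : Fin 6) :
    (matA D u).mulVec x p = tri D (ext6 x) (u (P6 p).1) (u (P6 p).2) := by
  rw [tri_ext6, Matrix.mulVec, dotProduct]
  exact Finset.sum_congr rfl fun k _ => mul_comm _ _

theorem det_matA_ne_zero {K : Type*} [Field K] (D : Ten K) (hD : Window D) :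
    (matA D (fun i => bv K (c3 i))).det ≠ 0 := by
  intro h
  obtain ⟨v, hv, hv0⟩ := Matrix.exists_mulVec_eq_zero_iff.2 h
  apply hv
  obtain ⟨e0, e1, e2, e3⟩ := ext6_low v
  have : ext6 v = 0 := by
    refine hD.nondeg (ext6 v) e0 e1 e2 e3 ?_
    intro i j
    refine all_of_P6 (fun i j => tri D (ext6 v) (bv K (c3 i)) (bv K (c3 j))) ?_ 0 ?_ i j
    · intro i j
      exact tri_swap23 hD.swap23 _ _ _
    · intro p
      have := congrFun hv0 p
      rw [matA_mulVec] at this
      exact this
  funext k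
  rw [← ext6_s6 v k, this]
  rfl

section

variable {K O : Type*} [Field K] [CommRing O] [Algebra K O] {t : O} {D : Ten K}
  {τ : Idx → K} {a : Idx → O}

theorem sq_le (t : O) : Ideal.span {t ^ 2} ≤ Ideal.span {t} := by
  rw [Ideal.span_singleton_le_span_singleton]
  exact Dvd.intro_left (t ^ 1) (by ring)

theorem arc_mem (ha : IsArc t D τ a) (q : Idx) : a q ∈ Ideal.span {t} := by
  have h := sq_le t (ha.tangent q)
  have h2 : t * algebraMap K O (τ q) ∈ Ideal.span {t} :=
    Ideal.mul_mem_right _ _ (Ideal.mem_span_singleton_self t)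
  have := add_mem h h2
  rwa [sub_add_cancel] at this

theorem tv_arc_mem (ha : IsArc t D τ a) (i : Fin 3) (j : Fin 10) :
    tv a i j ∈ Ideal.span {t} := by
  rw [tv]
  split_ifs
  · exact zero_mem _
  · exact arc_mem ha _

theorem tv_arc_tangent (ha : IsArc t D τ a) (i : Fin 3) (j : Fin 10) :
    tv a i j - t * algebraMap K O (tv τ i j) ∈ Ideal.span {t ^ 2} := by
  rw [tv, tv]
  split_ifs
  · simp
  · exact ha.tangent _

theorem mk_row (ha : IsArc t D τ a) (i : Fin 3) (j : Fin 10) :
    (Ideal.Quotient.mkₐ K (Ideal.span {t})) (row a i j) =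
      (Ideal.Quotient.mkₐ K (Ideal.span {t})) (algebraMap K O (bv K (c3 i) j)) := by
  rw [Ideal.Quotient.mkₐ_eq_mk, Ideal.Quotient.mk_eq_mk_iff_sub_mem]
  have : row a i j - algebraMap K O (bv K (c3 i) j) = tv a i j := by
    rw [row, Pi.add_apply, bv_apply, bv_apply]
    split_ifs <;> simp
  rw [this]
  exact tv_arc_mem ha i j

theorem algebraMap_bv (j k : Fin 10) : algebraMap K O (bv K j k) = bv O j k := by
  rw [bv_apply, bv_apply]
  split_ifs <;> simp

theorem tri_algebraMap (x y z : Fin 10 → K) :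
    algebraMap K O (tri D x y z) = tri D (fun i => algebraMap K O (x i))
      (fun i => algebraMap K O (y i)) (fun i => algebraMap K O (z i)) :=
  tri_map D (Algebra.ofId K O) x y z

theorem det_sub_mem (ha : IsArc t D τ a) :
    (matA D (row a)).det - algebraMap K O (matA D (fun i => bv K (c3 i))).det ∈
      Ideal.span {t} := by
  rw [← Ideal.Quotient.mk_eq_mk_iff_sub_mem, RingHom.map_det, RingHom.map_det, RingHom.map_det]
  congr 1
  ext p k
  simp only [RingHom.mapMatrix_apply, Matrix.map_apply, matA]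
  rw [← Ideal.Quotient.mkₐ_eq_mk K, tri_map, tri_algebraMap, tri_map]
  simp only [mk_row ha, algebraMap_bv]

theorem mulVec_mem (I : Ideal O) (M : Matrix (Fin 6) (Fin 6) O) (x : Fin 6 → O)
    (hx : ∀ k, x k ∈ I) (p : Fin 6) : M.mulVec x p ∈ I := by
  rw [Matrix.mulVec, dotProduct]
  exact Ideal.sum_mem _ fun k _ => Ideal.mul_mem_left _ _ (hx k)

theorem rhs_mem (hD : Window D) (ha : IsArc t D τ a) (i j : Fin 3) :
    tri D (bv O 3) (row a i) (row a j) ∈ Ideal.span {t} := by
  have hr : ∀ i, row a i = bv O (c3 i) + tv a i := fun i => rfl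
  rw [hr, hr, tri_add_mid, tri_add_right, tri_bv, window_zero33 D hD, map_zero, zero_add]
  exact add_mem (tri_mem_right D _ _ _ (tv_arc_mem ha j)) (tri_mem_mid D _ _ (tv_arc_mem ha i) _)

theorem rhs_tangent (hD : Window D) (ha : IsArc t D τ a) (i j : Fin 3) :
    tri D (bv O 3) (row a i) (row a j) - t * algebraMap K O
      (tri D (bv K 3) (tv τ i) (bv K (c3 j)) + tri D (bv K 3) (bv K (c3 i)) (tv τ j)) ∈
      Ideal.span {t ^ 2} := by
  have hr : ∀ i, row a i = bv O (c3 i) + tv a i := fun i => rfl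
  have h1 : tri D (bv O 3) (tv a i) (tv a j) ∈ Ideal.span {t ^ 2} := by
    rw [tri_swap12 hD.swap12, tri_swap23 hD.swap23]
    have := tri_mem_mul_left_mid D (Ideal.span {t}) (Ideal.span {t}) (tv_arc_mem ha i)
      (tv_arc_mem ha j) (bv O 3)
    rwa [Ideal.span_singleton_mul_span_singleton, ← pow_two] at this
  have h2 : tri D (bv O 3) (tv a i) (bv O (c3 j)) - t * algebraMap K O
      (tri D (bv K 3) (tv τ i) (bv K (c3 j))) ∈ Ideal.span {t ^ 2} := by
    rw [tri_algebraMap, ← tri_smul_mid]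
    simp only [algebraMap_bv]
    rw [← tri_sub_mid]
    exact tri_mem_mid D _ _ (tv_arc_tangent ha i) _
  have h3 : tri D (bv O 3) (bv O (c3 i)) (tv a j) - t * algebraMap K O
      (tri D (bv K 3) (bv K (c3 i)) (tv τ j)) ∈ Ideal.span {t ^ 2} := by
    rw [tri_algebraMap, ← tri_smul_right]
    simp only [algebraMap_bv]
    rw [← tri_sub_right]
    exact tri_mem_right D _ _ _ (tv_arc_tangent ha j)
  have h4 := add_mem (add_mem h1 h2) h3
  rw [hr, hr, tri_add_mid, tri_add_right, tri_add_right, tri_bv, window_zero33 D hD, map_zero]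
  convert h4 using 1
  rw [map_add]
  ring

end

theorem solve_normal {K O : Type*} [Field K] [CommRing O] [Algebra K O] (t : O)
    (hU : ∀ (x : O) (c : K), c ≠ 0 → x - algebraMap K O c ∈ Ideal.span {t} → IsUnit x)
    (D : Ten K) (hD : Window D) (τ : Idx → K) (a : Idx → O) (ha : IsArc t D τ a)
    (m0 : Fin 10 → K) (h0 : m0 0 = 0) (h1 : m0 1 = 0) (h2 : m0 2 = 0) (h3 : m0 3 = 0)
    (hm0 : ∀ i j : Fin 3, tri D m0 (bv K (c3 i)) (bv K (c3 j)) +
      tri D (bv K 3) (tv τ i) (bv K (c3 j)) + tri D (bv K 3) (bv K (c3 i)) (tv τ j) = 0) :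
    ∃ m : Fin 10 → O, m 0 = 0 ∧ m 1 = 0 ∧ m 2 = 0 ∧ m 3 = 0 ∧
      (∀ i j : Fin 3, tri D (bv O 3 + m) (row a i) (row a j) = 0) ∧
      ∀ k, m k - t * algebraMap K O (m0 k) ∈ Ideal.span {t ^ 2} := by
  set A := matA D (row a) with hA
  have hdet : IsUnit A.det := hU _ _ (det_matA_ne_zero D hD) (det_sub_mem ha)
  set b : Fin 6 → O := fun p => - tri D (bv O 3) (row a (P6 p).1) (row a (P6 p).2) with hb
  have hbt : ∀ p, b p ∈ Ideal.span {t} := fun p => neg_mem (rhs_mem hD ha _ _)
  set x : Fin 6 → O := A⁻¹.mulVec b with hx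
  have hAx : A.mulVec x = b := by
    rw [hx, Matrix.mulVec_mulVec, Matrix.mul_nonsing_inv A hdet, Matrix.one_mulVec]
  have hxt : ∀ k, x k ∈ Ideal.span {t} := fun k => mulVec_mem _ _ _ hbt k
  obtain ⟨e0, e1, e2, e3⟩ := ext6_low x
  refine ⟨ext6 x, e0, e1, e2, e3, ?_, ?_⟩
  · intro i j
    refine all_of_P6 (fun i j => tri D (bv O 3 + ext6 x) (row a i) (row a j)) ?_ 0 ?_ i j
    · intro i j
      exact tri_swap23 hD.swap23 _ _ _
    · intro p
      rw [tri_add_left, ← matA_mulVec, ← hA, hAx, hb]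
      ring
  · -- first order part
    set x0 : Fin 6 → O := fun k => algebraMap K O (m0 (s6 k)) with hx0
    set y : Fin 6 → O := x - t • x0 with hy
    have hAy : ∀ p, A.mulVec y p ∈ Ideal.span {t ^ 2} := by
      intro p
      set i := (P6 p).1 with hi
      set j := (P6 p).2 with hj
      have f1 : A.mulVec y p = b p - t * A.mulVec x0 p := by
        rw [hy, Matrix.mulVec_sub, Matrix.mulVec_smul, hAx]
        rfl
      have f2 : A.mulVec x0 p - algebraMap K O (tri D m0 (bv K (c3 i)) (bv K (c3 j))) ∈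
          Ideal.span {t} := by
        rw [hA, matA_mulVec, tri_algebraMap]
        have f3 : (fun i => algebraMap K O (m0 i)) = ext6 x0 := by
          rw [hx0]
          exact eq_ext6 (fun i => algebraMap K O (m0 i)) (by simp [h0]) (by simp [h1])
            (by simp [h2]) (by simp [h3])
        rw [f3]
        simp only [algebraMap_bv]
        have hr : ∀ i, row a i = bv O (c3 i) + tv a i := fun i => rfl
        rw [hr, hr, tri_add_mid, tri_add_right, tri_add_right]
        have g1 := tri_mem_right D (Ideal.span {t}) (ext6 x0) (bv O (c3 i)) (tv_arc_mem ha j)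
        have g2 := tri_mem_mid D (Ideal.span {t}) (ext6 x0) (tv_arc_mem ha i) (bv O (c3 j))
        have g3 := tri_mem_mid D (Ideal.span {t}) (ext6 x0) (tv_arc_mem ha i) (tv a j)
        have g4 := add_mem g1 (add_mem g2 g3)
        convert g4 using 1
        ring
      have f4 : t * (A.mulVec x0 p - algebraMap K O (tri D m0 (bv K (c3 i)) (bv K (c3 j)))) ∈
          Ideal.span {t ^ 2} := by
        rw [pow_two, ← Ideal.span_singleton_mul_span_singleton]
        exact Ideal.mul_mem_mul (Ideal.mem_span_singleton_self t) f2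
      have f5 := rhs_tangent hD ha i j
      have f6 : algebraMap K O (tri D m0 (bv K (c3 i)) (bv K (c3 j))) = - algebraMap K O
          (tri D (bv K 3) (tv τ i) (bv K (c3 j)) + tri D (bv K 3) (bv K (c3 i)) (tv τ j)) := by
        rw [← map_neg]
        congr 1
        linear_combination hm0 i j
      rw [f1]
      have f7 := neg_mem (add_mem f5 f4)
      rw [f6] at f7
      convert f7 using 1
      change - tri D (bv O 3) (row a i) (row a j) - _ = _
      ring
    have hyt : ∀ k, y k ∈ Ideal.span {t ^ 2} := by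
      intro k
      have : y = A⁻¹.mulVec (A.mulVec y) := by
        rw [Matrix.mulVec_mulVec, Matrix.nonsing_inv_mul A hdet, Matrix.one_mulVec]
      rw [this]
      exact mulVec_mem _ _ _ hAy k
    intro k
    by_cases hk : (k : ℕ) < 4
    · rcases low_cases k hk with rfl | rfl | rfl | rfl
      · rw [e0, h0, map_zero, mul_zero, sub_zero]
        exact zero_mem _
      · rw [e1, h1, map_zero, mul_zero, sub_zero]
        exact zero_mem _
      · rw [e2, h2, map_zero, mul_zero, sub_zero]
        exact zero_mem _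
      · rw [e3, h3, map_zero, mul_zero, sub_zero]
        exact zero_mem _
    · have hk' : k = s6 ⟨(k : ℕ) - 4, by omega⟩ := by
        apply Fin.ext
        simp only [s6]
        omega
      rw [hk', ext6_s6]
      exact hyt _

end Pool.Agent.Helper86.CY
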