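import Pool.Agent.Helper76.CY.Lin

/-!
# The tangent space of the variety of planes has dimension at most 11 (piece CY-10)
-/

namespace Pool.Agent.Helper86.CY

open MvPolynomial Pool.Agent.Helper76.CY

/-- `q^i_{jk} (τ) = D (tv τ i, e_j, e_k)` as a linear form in `τ`. -/
def qL {K : Type*} [Field K] (D : Ten K) (i j k : Fin 3) : (Idx → K) →ₗ[K] K where
  toFun τ := tri D (tv τ i) (bv K (c3 j)) (bv K (c3 k))
  map_add' a b := by rw [tv_add, tri_add_left]
  map_smul' c a := by rw [tv_smul, tri_smul_left, RingHom.id_apply, smul_eq_mul]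

theorem qL_symm {K : Type*} [Field K] (D : Ten K) (hD : Window D) (i j k : Fin 3) (τ : Idx → K) :
    qL D i j k τ = qL D i k j τ := by
  change tri D _ _ _ = tri D _ _ _
  rw [tri_swap23 hD.swap23]

theorem tanVal_eq {K : Type*} [Field K] (D : Ten K) (hD : Window D) (i j k : Fin 3)
    (τ : Idx → K) : tanVal D τ i j k = qL D i j k τ + qL D j i k τ + qL D k i j τ := by
  change _ = tri D _ _ _ + tri D _ _ _ + tri D _ _ _
  rw [tanVal]
  congr 1
  · congr 1
    rw [tri_swap12 hD.swap12]
  · rw [tri_swap23 hD.swap23, tri_swap12 hD.swap12]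

/-- The tangent space. -/
def tanSub {K : Type*} [Field K] (D : Ten K) (hD : Window D) : Submodule K (Idx → K) where
  carrier := {τ | ∀ i j k, tanVal D τ i j k = 0}
  add_mem' := by
    intro a b ha hb i j k
    have h1 := ha i j k
    have h2 := hb i j k
    rw [tanVal_eq D hD] at h1 h2 ⊢
    simp only [map_add]
    linear_combination h1 + h2
  zero_mem' := by
    intro i j k
    rw [tanVal_eq D hD]
    simp only [map_zero, add_zero]
  smul_mem' := by
    intro c a ha i j k
    have h1 := ha i j k
    rw [tanVal_eq D hD] at h1 ⊢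
    simp only [map_smul, smul_eq_mul]
    linear_combination c * h1

/-- Eleven coordinates on the tangent space. -/
def coordL {K : Type*} [Field K] (D : Ten K) : (Idx → K) →ₗ[K] (Fin 11 → K) :=
  LinearMap.pi ![LinearMap.proj (0, 0), LinearMap.proj (1, 0), LinearMap.proj (2, 0),
    qL D 0 0 1, qL D 0 0 2, qL D 0 1 1, qL D 0 2 2, qL D 0 1 2, qL D 1 1 2, qL D 1 2 2,
    qL D 1 0 2]

theorem tv_eq_zero {K : Type*} [Field K] (D : Ten K) (hD : Window D) (τ : Idx → K) (i : Fin 3)
    (h3 : τ (i, 0) = 0) (hq : ∀ j k, qL D i j k τ = 0) : tv τ i = 0 := by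
  refine hD.nondeg (tv τ i) ?_ ?_ ?_ ?_ hq
  · simp [tv]
  · simp [tv]
  · simp [tv]
  · simpa [tv] using h3

theorem eq_zero_of_tv {K : Type*} [Field K] (τ : Idx → K) (h : ∀ i, tv τ i = 0) : τ = 0 := by
  funext q
  obtain ⟨i, k⟩ := q
  have h1 := congrFun (h i) ⟨(k : ℕ) + 3, by omega⟩
  simpa [tv] using h1

theorem coordL_inj {K : Type*} [Field K] [CharZero K] (D : Ten K) (hD : Window D) (τ : Idx → K)
    (hτ : ∀ i j k, tanVal D τ i j k = 0) (h : coordL D τ = 0) : τ = 0 := by
  have h0 : τ (0, 0) = 0 := congrFun h 0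
  have h1 : τ (1, 0) = 0 := congrFun h 1
  have h2 : τ (2, 0) = 0 := congrFun h 2
  have q001 : qL D 0 0 1 τ = 0 := congrFun h 3
  have q002 : qL D 0 0 2 τ = 0 := congrFun h 4
  have q011 : qL D 0 1 1 τ = 0 := congrFun h 5
  have q022 : qL D 0 2 2 τ = 0 := congrFun h 6
  have q012 : qL D 0 1 2 τ = 0 := congrFun h 7
  have q112 : qL D 1 1 2 τ = 0 := congrFun h 8
  have q122 : qL D 1 2 2 τ = 0 := congrFun h 9
  have q102 : qL D 1 0 2 τ = 0 := congrFun h 10
  have t : ∀ i j k, qL D i j k τ + qL D j i k τ + qL D k i j τ = 0 := by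
    intro i j k
    rw [← tanVal_eq D hD]
    exact hτ i j k
  have s := fun i j k => qL_symm D hD i j k τ
  have t000 := t 0 0 0
  have t111 := t 1 1 1
  have t222 := t 2 2 2
  have t001 := t 0 0 1
  have t002 := t 0 0 2
  have t011 := t 0 1 1
  have t112 := t 1 1 2
  have t022 := t 0 2 2
  have t122 := t 1 2 2
  have t012 := t 0 1 2
  have q000 : qL D 0 0 0 τ = 0 := by linear_combination (1 / 3 : K) * t000
  have q111 : qL D 1 1 1 τ = 0 := by linear_combination (1 / 3 : K) * t111
  have q222 : qL D 2 2 2 τ = 0 := by linear_combination (1 / 3 : K) * t222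
  have q100 : qL D 1 0 0 τ = 0 := by linear_combination t001 - 2 * q001
  have q200 : qL D 2 0 0 τ = 0 := by linear_combination t002 - 2 * q002
  have q101 : qL D 1 0 1 τ = 0 := by
    linear_combination (1 / 2 : K) * (t011 - q011)
  have q211 : qL D 2 1 1 τ = 0 := by linear_combination t112 - 2 * q112
  have q202 : qL D 2 0 2 τ = 0 := by
    linear_combination (1 / 2 : K) * (t022 - q022)
  have q212 : qL D 2 1 2 τ = 0 := by
    linear_combination (1 / 2 : K) * (t122 - q122)
  have q201 : qL D 2 0 1 τ = 0 := by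
    linear_combination t012 - q012 - q102
  refine eq_zero_of_tv τ fun i => tv_eq_zero D hD τ i ?_ ?_
  · fin_cases i
    · exact h0
    · exact h1
    · exact h2
  · intro j k
    fin_cases i <;> fin_cases j <;> fin_cases k
    · exact q000
    · exact q001
    · exact q002
    · exact (s 0 1 0).trans q001
    · exact q011
    · exact q012
    · exact (s 0 2 0).trans q002
    · exact (s 0 2 1).trans q012
    · exact q022
    · exact q100
    · exact q101
    · exact q102
    · exact (s 1 1 0).trans q101
    · exact q111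
    · exact q112
    · exact (s 1 2 0).trans q102
    · exact (s 1 2 1).trans q112
    · exact q122
    · exact q200
    · exact q201
    · exact q202
    · exact (s 2 1 0).trans q201
    · exact q211
    · exact q212
    · exact (s 2 2 0).trans q202
    · exact (s 2 2 1).trans q212
    · exact q222

theorem tangent_span {K : Type*} [Field K] [CharZero K] (D : Ten K) (hD : Window D)
    (v : Fin 11 → Idx → K) (hv : LinearIndependent K v)
    (h0 : ∀ l i j k, tanVal D (v l) i j k = 0) (w : Idx → K)
    (hw : ∀ i j k, tanVal D w i j k = 0) : w ∈ Submodule.span K (Set.range v) := by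
  classical
  have hinj : Function.Injective ((coordL D).domRestrict (tanSub D hD)) := by
    rw [injective_iff_map_eq_zero]
    intro x hx
    exact Subtype.ext (coordL_inj D hD x.1 x.2 hx)
  have hle : Module.finrank K (tanSub D hD) ≤ 11 := by
    have := LinearMap.finrank_le_finrank_of_injective hinj
    simpa using this
  have hspan : Submodule.span K (Set.range v) ≤ tanSub D hD := by
    rw [Submodule.span_le]
    rintro _ ⟨l, rfl⟩
    exact h0 l
  have hfr : Module.finrank K (Submodule.span K (Set.range v)) = 11 := by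
    rw [finrank_span_eq_card hv]
    simp
  have heq := Submodule.eq_of_le_of_finrank_le hspan (by rw [hfr]; exact hle)
  rw [heq]
  exact hw

end Pool.Agent.Helper86.CY
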