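import Pool.Agent.Helper76.CY.Lin

/-!
# Specialisation of an arc over the local ring of the line (piece CY-7c)
-/

namespace Pool.Agent.Helper86.CY

open MvPolynomial Pool.Agent.Helper76.CY

theorem exists_point {ι K : Type*} [Finite ι] [Field K] [Infinite K] (a : ι → LocO K)
    (f : MvPolynomial ι K) (hf : aeval a f ≠ 0) :
    ∃ y : ι → K, eval y f ≠ 0 ∧ ∀ g : MvPolynomial ι K, aeval a g = 0 → eval y g = 0 := by
  classical
  set M := (Ideal.span {(Polynomial.X : Polynomial K)}).primeCompl with hM
  have hinj : Function.Injective (algebraMap (Polynomial K) (LocO K)) :=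
    IsLocalization.injective (LocO K) (M := M) (Ideal.primeCompl_le_nonZeroDivisors _)
  obtain ⟨s, hs⟩ := IsLocalization.exist_integer_multiples_of_finite M a
  have hs0 : (s : Polynomial K) ≠ 0 := by
    intro h
    apply s.2
    rw [h]
    exact zero_mem _
  have hsu : IsUnit (algebraMap (Polynomial K) (LocO K) (s : Polynomial K)) :=
    IsLocalization.map_units (LocO K) s
  choose p hp using hs
  set σ := algebraMap (Polynomial K) (LocO K) (s : Polynomial K) with hσ
  have hp' : ∀ q, algebraMap (Polynomial K) (LocO K) (p q) = σ * a q := by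
    intro q
    rw [hp q, Algebra.smul_def]
  have key : ∀ g : MvPolynomial ι K, ∃ (P : Polynomial K) (N : ℕ),
      algebraMap (Polynomial K) (LocO K) P = σ ^ N * aeval a g ∧
      ∀ z : K, (s : Polynomial K).eval z ≠ 0 →
        P.eval z = (s : Polynomial K).eval z ^ N *
          eval (fun q => (p q).eval z / (s : Polynomial K).eval z) g := by
    intro g
    induction g using MvPolynomial.induction_on with
    | C c =>
      refine ⟨Polynomial.C c, 0, ?_, ?_⟩
      · rw [pow_zero, one_mul, MvPolynomial.aeval_C, Polynomial.C_eq_algebraMap,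
          ← IsScalarTower.algebraMap_apply]
      · intro z _
        simp
    | add g h hg hh =>
      obtain ⟨P, N, hP, hPz⟩ := hg
      obtain ⟨Q, L, hQ, hQz⟩ := hh
      refine ⟨(s : Polynomial K) ^ L * P + (s : Polynomial K) ^ N * Q, N + L, ?_, ?_⟩
      · rw [map_add, map_mul, map_mul, map_pow, map_pow, hP, hQ, map_add]
        ring
      · intro z hz
        rw [Polynomial.eval_add, Polynomial.eval_mul, Polynomial.eval_mul, Polynomial.eval_pow,
          Polynomial.eval_pow, hPz z hz, hQz z hz, map_add]
        ring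
    | mul_X g q hg =>
      obtain ⟨P, N, hP, hPz⟩ := hg
      refine ⟨P * p q, N + 1, ?_, ?_⟩
      · rw [map_mul, hP, hp', map_mul, MvPolynomial.aeval_X]
        ring
      · intro z hz
        rw [Polynomial.eval_mul, hPz z hz, map_mul, MvPolynomial.eval_X, pow_succ]
        field_simp
  obtain ⟨P, N, hP, hPz⟩ := key f
  have hP0 : P ≠ 0 := by
    rintro rfl
    rw [map_zero] at hP
    exact hf ((hsu.pow N).mul_right_eq_zero.1 hP.symm)
  obtain ⟨z, hz⟩ : ∃ z : K, (P * (s : Polynomial K)).eval z ≠ 0 := by
    by_contra h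
    push Not at h
    exact mul_ne_zero hP0 hs0 (Polynomial.funext fun z => by rw [h z, Polynomial.eval_zero])
  rw [Polynomial.eval_mul] at hz
  have hPz0 := left_ne_zero_of_mul hz
  have hsz := right_ne_zero_of_mul hz
  refine ⟨fun q => (p q).eval z / (s : Polynomial K).eval z, ?_, ?_⟩
  · intro h
    rw [hPz z hsz, h, mul_zero] at hPz0
    exact hPz0 rfl
  · intro g hg
    obtain ⟨Q, L, hQ, hQz⟩ := key g
    rw [hg, mul_zero] at hQ
    have hQ0 : Q = 0 := by
      apply hinj
      rw [hQ, map_zero]
    have h := hQz z hsz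
    rw [hQ0, Polynomial.eval_zero] at h
    exact (mul_eq_zero.1 h.symm).resolve_left (pow_ne_zero _ hsz)

end Pool.Agent.Helper86.CY
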