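import Pool.Agent.Helper86.CY.ChiReal

/-!
# The characteristic polynomial is irreducible (piece CY-E6)
-/

namespace Pool.Agent.Helper86.CY

open MvPolynomial Pool.Agent.Helper76.CY

/-- The Frobenius map of order eleven on a root of the polynomial modulo three. -/
theorem frob_root {A : Type*} [CommRing A] (x : A) (hc : (3 : A) = 0)
    (hf : x ^ 11 - x ^ 10 - x ^ 9 + x ^ 8 - x ^ 7 + x ^ 6 - x ^ 5 - x ^ 4 - x + 1 = 0) :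
    x ^ (3 ^ 11) = x := by
  have h1 : x ^ (3 ^ 1) = x ^ 3 := by
    have e : x ^ (3 ^ 1) = x ^ 3 := by norm_num
    rw [e]
  have h2 : x ^ (3 ^ 2) = x ^ 9 := by
    have e : x ^ (3 ^ 2) = (x ^ (3 ^ 1)) ^ 3 := by rw [← pow_mul, ← pow_succ]
    rw [e, h1]
    linear_combination (0) * hf + (0) * hc
  have h3 : x ^ (3 ^ 3) = x ^ 10 + x ^ 9 - x ^ 8 - x ^ 7 + x ^ 6 - x ^ 5 + x ^ 2 - x + 1 := by
    have e : x ^ (3 ^ 3) = (x ^ (3 ^ 2)) ^ 3 := by rw [← pow_mul, ← pow_succ]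
    rw [e, h2]
    linear_combination (x ^ 16 + x ^ 15 - x ^ 14 - x ^ 13 + x ^ 12 + x ^ 11 - x ^ 10 + x ^ 9 + x
      ^ 8 + x ^ 7 + x ^ 5 + x ^ 4 - x ^ 3 - x ^ 2 - 1) * hf + (x ^ 25 - x ^ 23 + x ^ 21 + x ^ 16
      - x ^ 15 + x ^ 14 + x ^ 13 + x ^ 8 - x ^ 7 - x ^ 4) * hc
  have h4 : x ^ (3 ^ 4) = x ^ 9 + x ^ 7 + x ^ 6 + x ^ 5 - x ^ 3 - x - 1 := by
    have e : x ^ (3 ^ 4) = (x ^ (3 ^ 3)) ^ 3 := by rw [← pow_mul, ← pow_succ]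
    rw [e, h3]
    linear_combination (x ^ 19 + x ^ 18 - x ^ 17 - x ^ 15 + x ^ 12 - x ^ 9 - x ^ 8 - x ^ 7 + x ^
      6 - x ^ 4 - 1) * hf + (x ^ 29 + x ^ 28 - 3 * x ^ 27 - x ^ 26 + 3 * x ^ 25 - x ^ 24 - 2 * x
      ^ 23 + 4 * x ^ 22 + 3 * x ^ 21 - 5 * x ^ 20 + 4 * x ^ 18 - 5 * x ^ 17 - 3 * x ^ 16 + 6 * x
      ^ 15 - 6 * x ^ 13 + 5 * x ^ 12 - x ^ 11 - 4 * x ^ 9 + 6 * x ^ 8 - 6 * x ^ 7 + 3 * x ^ 6 - 3
      * x ^ 5 + 2 * x ^ 4 - 2 * x ^ 3 + 2 * x ^ 2 - x + 1) * hc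
  have h5 : x ^ (3 ^ 5) = x ^ 10 + x ^ 9 + x ^ 8 - x ^ 7 - x ^ 5 - x ^ 2 - x + 1 := by
    have e : x ^ (3 ^ 5) = (x ^ (3 ^ 4)) ^ 3 := by rw [← pow_mul, ← pow_succ]
    rw [e, h4]
    linear_combination (x ^ 16 + x ^ 15 - x ^ 14 - x ^ 13 + x ^ 12 + x ^ 11 - x ^ 9 + x ^ 7 - x ^
      6 + x ^ 5 - x ^ 3 - x + 1) * hf + (2 * x ^ 25 + x ^ 24 + x ^ 23 + 2 * x ^ 22 + 3 * x ^ 21 +
      4 * x ^ 20 - 2 * x ^ 18 - 2 * x ^ 17 - 5 * x ^ 16 - 7 * x ^ 15 - 6 * x ^ 14 - 4 * x ^ 13 -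
      x ^ 12 + 4 * x ^ 10 + 7 * x ^ 9 + 4 * x ^ 8 + 3 * x ^ 7 + 2 * x ^ 6 - 2 * x ^ 4 - x ^ 3 - x
      ^ 2 - 1) * hc
  have h6 : x ^ (3 ^ 6) = -x ^ 8 - x ^ 7 - x ^ 6 + x ^ 5 - x ^ 4 + x ^ 3 - x ^ 2 - x - 1 := by
    have e : x ^ (3 ^ 6) = (x ^ (3 ^ 5)) ^ 3 := by rw [← pow_mul, ← pow_succ]
    rw [e, h5]
    linear_combination (x ^ 19 + x ^ 18 - x ^ 17 - x ^ 15 - x ^ 13 + x ^ 11 + x ^ 10 + x ^ 9 + x
      ^ 8 - x ^ 7 - x ^ 6 - x ^ 4 - x ^ 3 + x ^ 2 - 1) * hf + (x ^ 29 + 3 * x ^ 28 + x ^ 27 - 3 *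
      x ^ 25 - 3 * x ^ 24 - 2 * x ^ 23 - x ^ 22 - 2 * x ^ 21 - x ^ 20 - x ^ 19 + 5 * x ^ 18 + 4 *
      x ^ 17 + 3 * x ^ 16 - x ^ 13 + 4 * x ^ 12 - 3 * x ^ 11 - 4 * x ^ 10 - x ^ 9 + 3 * x ^ 6 - 3
      * x ^ 5 + 2 * x ^ 3 - x + 1) * hc
  have h7 : x ^ (3 ^ 7) = x ^ 10 + x ^ 9 - x ^ 3 + x ^ 2 - 1 := by
    have e : x ^ (3 ^ 7) = (x ^ (3 ^ 6)) ^ 3 := by rw [← pow_mul, ← pow_succ]
    rw [e, h6]
    linear_combination (-x ^ 13 - x ^ 12 + x ^ 11 + x ^ 9 + x ^ 7 - x ^ 5 - x ^ 4 - x ^ 3 - x ^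
      2) * hf + (-x ^ 23 - 3 * x ^ 22 - x ^ 21 - x ^ 20 + x ^ 19 - x ^ 18 - x ^ 17 - 6 * x ^ 16 -
      3 * x ^ 15 - 7 * x ^ 14 + 4 * x ^ 13 - 4 * x ^ 12 + 4 * x ^ 11 - 7 * x ^ 10 - 4 * x ^ 9 - 7
      * x ^ 8 - x ^ 7 - 2 * x ^ 6 + x ^ 5 - x ^ 4 - x ^ 3 - 2 * x ^ 2 - x) * hc
  have h8 : x ^ (3 ^ 8) = -x ^ 9 + x ^ 5 + x ^ 4 - x ^ 3 - x ^ 2 - x + 1 := by
    have e : x ^ (3 ^ 8) = (x ^ (3 ^ 7)) ^ 3 := by rw [← pow_mul, ← pow_succ]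
    rw [e, h7]
    linear_combination (x ^ 19 + x ^ 18 - x ^ 17 - x ^ 15 + x ^ 13 - x ^ 12 - x ^ 11 + x ^ 9 - x
      ^ 8 - x ^ 7 - x ^ 6 + x ^ 4 + x ^ 3 - x + 1) * hf + (x ^ 29 + 2 * x ^ 28 - x ^ 24 + x ^ 23
      - x ^ 22 - 2 * x ^ 19 - x ^ 18 - 2 * x ^ 15 + 3 * x ^ 13 - 3 * x ^ 11 + x ^ 10 + x ^ 9 + x
      ^ 8 - x ^ 6 + 2 * x ^ 5 - x ^ 4 - x ^ 3 + x ^ 2 + x - 1) * hc
  have h9 : x ^ (3 ^ 9) = -x ^ 10 - x ^ 9 - x ^ 8 + x ^ 6 + x ^ 5 - x ^ 4 + 1 := by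
    have e : x ^ (3 ^ 9) = (x ^ (3 ^ 8)) ^ 3 := by rw [← pow_mul, ← pow_succ]
    rw [e, h8]
    linear_combination (-x ^ 16 - x ^ 15 + x ^ 14 + x ^ 13 - x ^ 12 - x ^ 11 + x ^ 10 - x ^ 9 - x
      ^ 8 - x ^ 7 - x ^ 5 - x ^ 3) * hf + (-x ^ 25 + 2 * x ^ 23 + x ^ 22 - 2 * x ^ 21 - x ^ 20 -
      2 * x ^ 19 - x ^ 18 + x ^ 17 + 3 * x ^ 16 + 4 * x ^ 15 - x ^ 14 - 6 * x ^ 13 - 4 * x ^ 12 -
      x ^ 11 + 2 * x ^ 10 + 5 * x ^ 9 + 3 * x ^ 8 - 3 * x ^ 7 - 5 * x ^ 6 - x ^ 5 + 3 * x ^ 4 + x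
      ^ 3 - x) * hc
  have h10 : x ^ (3 ^ 10) = x ^ 10 - x ^ 8 - x ^ 7 + x ^ 6 + x ^ 5 + x ^ 4 + x ^ 3 + x ^ 2 + x :=
      by
    have e : x ^ (3 ^ 10) = (x ^ (3 ^ 9)) ^ 3 := by rw [← pow_mul, ← pow_succ]
    rw [e, h9]
    linear_combination (-x ^ 19 - x ^ 18 + x ^ 17 + x ^ 15 + x ^ 13 - x ^ 11 + x ^ 10 + x ^ 9 + x
      ^ 6 + x ^ 5 + x ^ 4 + x ^ 3 - x ^ 2 + 1) * hf + (-x ^ 29 - 3 * x ^ 28 - 2 * x ^ 27 - x ^ 26
      + 2 * x ^ 25 + 4 * x ^ 24 + 2 * x ^ 23 - 5 * x ^ 21 - 2 * x ^ 20 + 4 * x ^ 19 + 6 * x ^ 18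
      + 4 * x ^ 17 - 2 * x ^ 16 - 6 * x ^ 15 - x ^ 14 + 2 * x ^ 13 + 2 * x ^ 12 + 2 * x ^ 11 - x
      ^ 10 - 3 * x ^ 9 + x ^ 8 + x ^ 7 + x ^ 5 - x ^ 4 - x ^ 3) * hc
  have h11 : x ^ (3 ^ 11) = x := by
    have e : x ^ (3 ^ 11) = (x ^ (3 ^ 10)) ^ 3 := by rw [← pow_mul, ← pow_succ]
    rw [e, h10]
    linear_combination (x ^ 19 + x ^ 18 - x ^ 17 - x ^ 16 + x ^ 15 + x ^ 14 + x ^ 13 - x ^ 11 + x
      ^ 10 + x ^ 9 + x ^ 8 + x ^ 7 + x ^ 6 - x ^ 5 - x ^ 2 - x) * hf + (-x ^ 27 + x ^ 26 + 3 * x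
      ^ 25 - 3 * x ^ 23 - x ^ 22 + 2 * x ^ 20 + 2 * x ^ 19 + 2 * x ^ 18 + 5 * x ^ 17 + 2 * x ^ 16
      - 3 * x ^ 15 - 3 * x ^ 14 + x ^ 13 + 2 * x ^ 12 + 5 * x ^ 11 + 6 * x ^ 10 + 7 * x ^ 9 + 7 *
      x ^ 8 + 5 * x ^ 7 + 2 * x ^ 6 + 2 * x ^ 5 + x ^ 4) * hc

  exact h11

/-- The reduction modulo three. -/
noncomputable def f3 : Polynomial (ZMod 3) :=
  Polynomial.X ^ 11 - Polynomial.X ^ 10 - Polynomial.X ^ 9 + Polynomial.X ^ 8 -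
    Polynomial.X ^ 7 + Polynomial.X ^ 6 - Polynomial.X ^ 5 - Polynomial.X ^ 4 -
    Polynomial.X + 1

theorem f3_natDegree : f3.natDegree = 11 := by
  unfold f3
  compute_degree!

theorem f3_ne_zero : f3 ≠ 0 := by
  intro h
  have := f3_natDegree
  rw [h, Polynomial.natDegree_zero] at this
  norm_num at this

theorem f3_eval (a : ZMod 3) : f3.eval a ≠ 0 := by
  have h : f3.eval a = a ^ 11 - a ^ 10 - a ^ 9 + a ^ 8 - a ^ 7 + a ^ 6 - a ^ 5 - a ^ 4 -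
      a + 1 := by
    simp [f3]
  rw [h]
  clear h
  revert a
  decide

theorem deg_eleven (d : ℕ) (h1 : 0 < d) (h2 : d ≤ 11) (h3 : d ≠ 1)
    (h : 3 ^ d - 1 ∣ 3 ^ 11 - 1) : d = 11 := by
  interval_cases d <;> revert h h3 <;> norm_num

theorem factor_degree (g : Polynomial (ZMod 3)) (hg : Irreducible g) (hgf : g ∣ f3) :
    g.natDegree = 11 := by
  have : Fact (Irreducible g) := ⟨hg⟩
  have : Fact (Nat.Prime 3) := ⟨Nat.prime_three⟩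
  set d := g.natDegree with hd
  have hd1 : 0 < d := hg.natDegree_pos
  have hd11 : d ≤ 11 := by
    rw [← f3_natDegree]
    exact Polynomial.natDegree_le_of_dvd hgf f3_ne_zero
  let K := AdjoinRoot g
  let _ : Field K := AdjoinRoot.instField
  let pb := AdjoinRoot.powerBasis hg.ne_zero
  have : Module.Finite (ZMod 3) K := pb.finite
  have : Finite K := Module.finite_of_finite (ZMod 3)
  have : CharP K 3 := charP_of_injective_algebraMap (algebraMap (ZMod 3) K).injective 3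
  have hfr : Module.finrank (ZMod 3) K = d := by
    rw [pb.finrank, AdjoinRoot.powerBasis_dim]
  have hcard : Nat.card K = 3 ^ d := by
    rw [Module.natCard_eq_pow_finrank (K := ZMod 3), hfr, Nat.card_zmod]
  -- the root
  set α : K := AdjoinRoot.root g with hα
  have hroot : Polynomial.aeval α f3 = 0 := by
    obtain ⟨h, hh⟩ := hgf
    rw [hα, hh, map_mul, AdjoinRoot.aeval_eq, AdjoinRoot.mk_self, zero_mul]
  have h3 : (3 : K) = 0 := by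
    have := CharP.cast_eq_zero K 3
    exact_mod_cast this
  have hα11 : α ^ (3 ^ 11) = α := by
    refine frob_root α h3 ?_
    have := hroot
    simpa [f3] using this
  have hall : ∀ x : K, x ^ (3 ^ 11) = x := by
    intro x
    have e : ∀ x, (iterateFrobenius K 3 11) x = x ^ (3 ^ 11) := fun x => rfl
    rw [← e]
    obtain ⟨p, rfl⟩ := AdjoinRoot.mk_surjective x
    rw [← AdjoinRoot.aeval_eq, ← hα]
    induction p using Polynomial.induction_on' with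
    | add p q hp hq => rw [map_add, map_add, hp, hq]
    | monomial n a =>
      rw [Polynomial.aeval_monomial, map_mul, map_pow, e α, hα11, e, ← map_pow,
        ZMod.pow_card_pow]
  obtain ⟨ζ, hζ⟩ := IsCyclic.exists_generator (α := Kˣ)
  have hord : orderOf ζ = 3 ^ d - 1 := by
    rw [orderOf_eq_card_of_forall_mem_zpowers hζ, Nat.card_units, hcard]
  have hdvd : 3 ^ d - 1 ∣ 3 ^ 11 - 1 := by
    rw [← hord]
    apply orderOf_dvd_of_pow_eq_one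
    have h1 : ζ ^ (3 ^ 11) = ζ := by
      apply Units.ext
      rw [Units.val_pow_eq_pow_val]
      exact hall _
    have h2 : (3 : ℕ) ^ 11 = (3 ^ 11 - 1) + 1 := by norm_num
    rw [h2, pow_succ] at h1
    exact mul_eq_right.1 h1
  have hd2 : d ≠ 1 := by
    intro h1
    obtain ⟨a, ha⟩ := Polynomial.exists_root_of_degree_eq_one
      (Polynomial.degree_eq_iff_natDegree_eq_of_pos one_pos |>.2 h1)
    obtain ⟨h, hh⟩ := hgf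
    apply f3_eval a
    rw [hh, Polynomial.eval_mul, ha.eq_zero, zero_mul]
  exact deg_eleven d hd1 hd11 hd2 hdvd

theorem f3_irreducible : Irreducible f3 := by
  have hnu : ¬ IsUnit f3 := by
    intro h
    have := Polynomial.natDegree_eq_zero_of_isUnit h
    rw [f3_natDegree] at this
    norm_num at this
  obtain ⟨g, hg, hgf⟩ := WfDvdMonoid.exists_irreducible_factor hnu f3_ne_zero
  have hd := factor_degree g hg hgf
  obtain ⟨h, hh⟩ := hgf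
  have hh0 : h ≠ 0 := by
    rintro rfl
    rw [mul_zero] at hh
    exact f3_ne_zero hh
  have hdh : h.natDegree = 0 := by
    have := f3_natDegree
    rw [hh, Polynomial.natDegree_mul hg.ne_zero hh0, hd] at this
    omega
  have hu : IsUnit h := by
    rw [Polynomial.eq_C_of_natDegree_eq_zero hdh, Polynomial.isUnit_C, isUnit_iff_ne_zero]
    intro h0
    apply hh0
    rw [Polynomial.eq_C_of_natDegree_eq_zero hdh, h0, Polynomial.C_0]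
  rw [hh]
  exact (irreducible_mul_isUnit hu).2 hg

theorem chiZ_map (u v : ℤ) (hu : u % 3 = 1) (hv : v % 3 = 2) :
    (chiZ u v).map (Int.castRingHom (ZMod 3)) = f3 := by
  have hu' : (u : ZMod 3) = 1 := by
    rw [← Int.cast_one, ZMod.intCast_eq_intCast_iff]
    exact hu
  have hv' : (v : ZMod 3) = 2 := by
    have : ((2 : ℤ) : ZMod 3) = 2 := by norm_num
    rw [← this, ZMod.intCast_eq_intCast_iff]
    exact hv
  have h3 : (3 : Polynomial (ZMod 3)) = 0 := by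
    have := CharP.cast_eq_zero (Polynomial (ZMod 3)) 3
    exact_mod_cast this
  simp only [chiZ, f3, Polynomial.map_add, Polynomial.map_mul, Polynomial.map_pow,
    Polynomial.map_X, Polynomial.map_C]
  simp only [eq_intCast]
  push_cast
  rw [hu', hv']
  simp only [Polynomial.C_add, Polynomial.C_sub, Polynomial.C_mul, Polynomial.C_neg,
    Polynomial.C_pow, Polynomial.C_1, map_ofNat]
  linear_combination (Polynomial.X ^ 10 - Polynomial.X ^ 8 - 2 * Polynomial.X ^ 5 -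
    2 * Polynomial.X ^ 3 + 2 * Polynomial.X ^ 2 + 3 * Polynomial.X - 3) * h3

theorem chiQ_natDegree (u v : ℤ) : (chiQ u v).natDegree = 11 := by
  rw [chiQ, (chiZ_monic u v).natDegree_map, chiZ_natDegree]

theorem chiQ_irreducible (u v : ℤ) (hu : u % 3 = 1) (hv : v % 3 = 2) :
    Irreducible (chiQ u v) := by
  have h1 : Irreducible (chiZ u v) := by
    refine Polynomial.Monic.irreducible_of_irreducible_map (Int.castRingHom (ZMod 3)) _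
      (chiZ_monic u v) ?_
    rw [chiZ_map u v hu hv]
    exact f3_irreducible
  exact (Polynomial.IsPrimitive.Int.irreducible_iff_irreducible_map_cast
    (chiZ_monic u v).isPrimitive).1 h1

end Pool.Agent.Helper86.CY
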