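import Pool.Agent.Helper76.CY.Ex

/-!
# The real roots of the characteristic polynomial (piece CY-E7)
-/

namespace Pool.Agent.Helper86.CY

open MvPolynomial Pool.Agent.Helper76.CY

theorem chiZ_natDegree (u v : ℤ) : (chiZ u v).natDegree = 11 := by
  unfold chiZ
  compute_degree!

theorem chiZ_monic (u v : ℤ) : (chiZ u v).Monic := by
  unfold chiZ
  monicity!

theorem aeval_chiQ (u v : ℤ) (x : ℝ) : Polynomial.aeval x (chiQ u v) =
    x ^ 11 + (u + 1) * x ^ 10 + (u - 2) * x ^ 9 - 2 * x ^ 8 + (u - v) * x ^ 7 +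
      (u * v - u ^ 2) * x ^ 6 + (-3 * u - 2 * v) * x ^ 5 +
      (-3 * u ^ 2 + 2 * u * v - 2 * v + 2) * x ^ 4 - 6 * u * x ^ 3 +
      (4 * v - 2 * u ^ 2) * x ^ 2 + 8 * x - 8 := by
  simp only [chiQ, chiZ, Polynomial.aeval_def, Polynomial.eval₂_map, Polynomial.eval₂_add,
    Polynomial.eval₂_mul, Polynomial.eval₂_pow, Polynomial.eval₂_X, Polynomial.eval₂_C,
    RingHom.comp_apply]
  simp only [eq_intCast, map_intCast]
  push_cast
  ring

theorem chiQ_real (u v : ℤ) (h : 14 + 6 * u ^ 2 < 8 * u + 5 * v + 3 * u * v) :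
    ∃ x y : ℝ, Polynomial.aeval x (chiQ u v) = 0 ∧ Polynomial.aeval y (chiQ u v) = 0 ∧
      ∀ n : ℕ, 0 < n → x ^ n ≠ y ^ n := by
  set P : Polynomial ℝ := (chiQ u v).map (algebraMap ℚ ℝ) with hP
  have hPe : ∀ x : ℝ, P.eval x = Polynomial.aeval x (chiQ u v) := by
    intro x
    rw [hP, Polynomial.eval_map_algebraMap]
  have hcont : Continuous fun x : ℝ => P.eval x := P.continuous
  have hm1 : 0 < P.eval (-1) := by
    rw [hPe, aeval_chiQ]
    have h' : (14 + 6 * (u : ℝ) ^ 2) < 8 * u + 5 * v + 3 * u * v := by exact_mod_cast h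
    nlinarith
  have h0 : P.eval 0 < 0 := by
    rw [hPe, aeval_chiQ]
    norm_num
  have hmonQ : (chiQ u v).Monic := (chiZ_monic u v).map _
  have hmon : P.Monic := hmonQ.map _
  have hdegQ : (chiQ u v).natDegree = 11 := by
    rw [chiQ, (chiZ_monic u v).natDegree_map, chiZ_natDegree]
  have hdeg : P.natDegree = 11 := by
    rw [hP, hmonQ.natDegree_map, hdegQ]
  obtain ⟨M, hM1, hMneg⟩ : ∃ M : ℝ, 1 < M ∧ P.eval (-M) < 0 := by
    set Q : Polynomial ℝ := -(P.comp (-Polynomial.X)) with hQ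
    have hnX : (-Polynomial.X : Polynomial ℝ).natDegree = 1 := by
      rw [Polynomial.natDegree_neg, Polynomial.natDegree_X]
    have hQdeg : Q.natDegree = 11 := by
      rw [hQ, Polynomial.natDegree_neg, Polynomial.natDegree_comp, hdeg, hnX]
    have hQlc : Q.leadingCoeff = 1 := by
      rw [hQ, Polynomial.leadingCoeff_neg, Polynomial.leadingCoeff_comp (by rw [hnX]; norm_num),
        hmon.leadingCoeff, hdeg, Polynomial.leadingCoeff_neg, Polynomial.leadingCoeff_X]
      norm_num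
    have ht := Polynomial.tendsto_atTop_of_leadingCoeff_nonneg Q
      (Polynomial.natDegree_pos_iff_degree_pos.1 (by rw [hQdeg]; norm_num))
      (by rw [hQlc]; norm_num)
    have he := (ht.eventually_gt_atTop 0).and (Filter.eventually_gt_atTop (1 : ℝ))
    obtain ⟨M, hM0, hM1⟩ := he.exists
    refine ⟨M, hM1, ?_⟩
    rw [hQ, Polynomial.eval_neg, Polynomial.eval_comp, Polynomial.eval_neg,
      Polynomial.eval_X] at hM0
    linarith
  obtain ⟨x, ⟨hx1, hx2⟩, hx⟩ := intermediate_value_Icc (by linarith : -M ≤ -1)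
    (hcont.continuousOn) ⟨hMneg.le, hm1.le⟩
  obtain ⟨y, ⟨hy1, hy2⟩, hy⟩ := intermediate_value_Icc' (by norm_num : (-1 : ℝ) ≤ 0)
    (hcont.continuousOn) ⟨h0.le, hm1.le⟩
  simp only at hx hy
  have hx3 : x < -1 := lt_of_le_of_ne hx2 (by rintro rfl; linarith)
  have hy3 : -1 < y := lt_of_le_of_ne hy1 (by rintro rfl; linarith)
  have hy4 : y < 0 := lt_of_le_of_ne hy2 (by rintro rfl; linarith)
  refine ⟨x, y, by rw [← hPe, hx], by rw [← hPe, hy], ?_⟩
  intro n hn heq
  have h1 : 1 < |x| ^ n := one_lt_pow₀ (by rw [abs_of_neg (by linarith)]; linarith) hn.ne'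
  have h2 : |y| ^ n < 1 := pow_lt_one₀ (abs_nonneg y)
    (by rw [abs_of_neg hy4]; linarith) hn.ne'
  rw [← abs_pow, heq, abs_pow] at h1
  linarith

end Pool.Agent.Helper86.CY
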