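import Pool.Agent.Helper76.CY.Ex

/-!
# The explicit curve of planes (piece CY-E4)
-/

namespace Pool.Agent.Helper86.CY

open MvPolynomial Pool.Agent.Helper76.CY

theorem ind_sum {R : Type*} [CommRing R] [Algebra ℚ R] (p q r : Fin 10) (x y z : Fin 10 → R) :
    ∑ i, ∑ j, ∑ k, algebraMap ℚ R (if i = p ∧ j = q ∧ k = r then 1 else 0) * x i * y j * z k =
      x p * y q * z r := by
  rw [Finset.sum_eq_single p, Finset.sum_eq_single q, Finset.sum_eq_single r]
  · simp
  · intro k _ hk
    simp [hk]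
  · simp
  · intro j _ hj
    refine Finset.sum_eq_zero fun k _ => ?_
    simp [hj]
  · simp
  · intro i _ hi
    refine Finset.sum_eq_zero fun j _ => Finset.sum_eq_zero fun k _ => ?_
    simp [hi]
  · simp

theorem tri_add_ten {R : Type*} [CommRing R] [Algebra ℚ R] (D D' : Ten ℚ)
    (x y z : Fin 10 → R) :
    tri (fun i j k => D i j k + D' i j k) x y z = tri D x y z + tri D' x y z := by
  simp only [tri, ← Finset.sum_add_distrib]
  refine Finset.sum_congr rfl fun i _ => Finset.sum_congr rfl fun j _ =>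
    Finset.sum_congr rfl fun k _ => ?_
  rw [map_add]
  ring

theorem tri_neg_ten {R : Type*} [CommRing R] [Algebra ℚ R] (D : Ten ℚ)
    (x y z : Fin 10 → R) :
    tri (fun i j k => - D i j k) x y z = - tri D x y z := by
  simp only [tri, ← Finset.sum_neg_distrib]
  refine Finset.sum_congr rfl fun i _ => Finset.sum_congr rfl fun j _ =>
    Finset.sum_congr rfl fun k _ => ?_
  rw [map_neg]
  ring

/-- The permanent-like expression of `sym3`. -/
theorem tri_sym3 {R : Type*} [CommRing R] [Algebra ℚ R] (p q r : Fin 10) (x y z : Fin 10 → R) :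
    tri (fun i j k => (sym3 p q r i j k : ℚ)) x y z =
      x p * y q * z r + x p * y r * z q + x q * y p * z r + x q * y r * z p +
        x r * y p * z q + x r * y q * z p := by
  rw [← ind_sum p q r, ← ind_sum p r q, ← ind_sum q p r, ← ind_sum q r p, ← ind_sum r p q,
    ← ind_sum r q p]
  simp only [tri, ← Finset.sum_add_distrib]
  refine Finset.sum_congr rfl fun i _ => Finset.sum_congr rfl fun j _ =>
    Finset.sum_congr rfl fun k _ => ?_
  have : (sym3 p q r i j k : ℚ) = (if i = p ∧ j = q ∧ k = r then 1 else 0) +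
      (if i = p ∧ j = r ∧ k = q then 1 else 0) + (if i = q ∧ j = p ∧ k = r then 1 else 0) +
      (if i = q ∧ j = r ∧ k = p then 1 else 0) + (if i = r ∧ j = p ∧ k = q then 1 else 0) +
      (if i = r ∧ j = q ∧ k = p then 1 else 0) := by
    rw [sym3]
    push_cast
    rfl
  rw [this]
  simp only [map_add]
  ring

/-- The support. -/
def supS : Finset (Fin 10) := {0, 1, 2, 5, 6}

theorem orb_small : ∀ i ∈ supS, ∀ j ∈ supS, ∀ k ∈ supS,
    orb 3 3 i j k - orb 1 4 i j k + orb 2 6 i j k =
      sym3 2 5 5 i j k + (- sym3 1 2 5 i j k) + sym3 0 2 6 i j k ∧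
    orb 2 7 i j k = 0 ∧ orb 3 6 i j k = 0 := by
  decide +kernel

theorem tri_congr_S {R : Type*} [CommRing R] [Algebra ℚ R] (D D' : Ten ℚ)
    (h : ∀ i ∈ supS, ∀ j ∈ supS, ∀ k ∈ supS, D i j k = D' i j k) (x y z : Fin 10 → R)
    (hx : ∀ i, i ∉ supS → x i = 0) (hy : ∀ i, i ∉ supS → y i = 0)
    (hz : ∀ i, i ∉ supS → z i = 0) : tri D x y z = tri D' x y z := by
  simp only [tri]
  refine Finset.sum_congr rfl fun i _ => Finset.sum_congr rfl fun j _ =>
    Finset.sum_congr rfl fun k _ => ?_
  by_cases hi : i ∈ supS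
  · by_cases hj : j ∈ supS
    · by_cases hk : k ∈ supS
      · rw [h i hi j hj k hk]
      · rw [hz k hk, mul_zero, mul_zero]
    · rw [hy j hj, mul_zero, mul_zero]
  · rw [hx i hi, mul_zero, mul_zero]

theorem tri_Dex_S {R : Type*} [CommRing R] [Algebra ℚ R] (u v : ℤ) (x y z : Fin 10 → R)
    (hx : ∀ i, i ∉ supS → x i = 0) (hy : ∀ i, i ∉ supS → y i = 0)
    (hz : ∀ i, i ∉ supS → z i = 0) : tri (Dex u v) x y z =
      (x 2 * y 5 * z 5 + x 2 * y 5 * z 5 + x 5 * y 2 * z 5 + x 5 * y 5 * z 2 +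
        x 5 * y 2 * z 5 + x 5 * y 5 * z 2) -
      (x 1 * y 2 * z 5 + x 1 * y 5 * z 2 + x 2 * y 1 * z 5 + x 2 * y 5 * z 1 +
        x 5 * y 1 * z 2 + x 5 * y 2 * z 1) +
      (x 0 * y 2 * z 6 + x 0 * y 6 * z 2 + x 2 * y 0 * z 6 + x 2 * y 6 * z 0 +
        x 6 * y 0 * z 2 + x 6 * y 2 * z 0) := by
  rw [tri_congr_S (Dex u v) (fun i j k => ((sym3 2 5 5 i j k : ℚ) + (- (sym3 1 2 5 i j k : ℚ))) +
    (sym3 0 2 6 i j k : ℚ)) ?_ x y z hx hy hz]
  · rw [tri_add_ten, tri_add_ten, tri_neg_ten, tri_sym3, tri_sym3, tri_sym3]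
    ring
  · intro i hi j hj k hk
    obtain ⟨h1, h2, h3⟩ := orb_small i hi j hj k hk
    rw [Dex, h1, h2, h3]
    push_cast
    ring

theorem row_pex_0 : ∀ j : Fin 10, row pex 0 j =
    if j = 0 then 1 else if j = 5 then Polynomial.X else if j = 6 then -Polynomial.X ^ 2
      else 0 := by
  intro j
  fin_cases j <;> simp [row, bv, tv, pex, c3]

theorem row_pex_1 : ∀ j : Fin 10, row pex 1 j =
    if j = 1 then 1 else if j = 6 then Polynomial.X else 0 := by
  intro j
  fin_cases j <;> simp [row, bv, tv, pex, c3]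

theorem row_pex_2 : ∀ j : Fin 10, row pex 2 j = if j = 2 then 1 else 0 := by
  intro j
  fin_cases j <;> simp [row, bv, tv, pex, c3]

theorem row_pex_supp (i : Fin 3) : ∀ j, j ∉ supS → row pex i j = 0 := by
  intro j hj
  fin_cases i
  · change row pex 0 j = 0
    rw [row_pex_0]
    revert hj
    fin_cases j <;> simp [supS]
  · change row pex 1 j = 0
    rw [row_pex_1]
    revert hj
    fin_cases j <;> simp [supS]
  · change row pex 2 j = 0
    rw [row_pex_2]
    revert hj
    fin_cases j <;> simp [supS]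

theorem curve_pex (u v : ℤ) (i j k : Fin 3) :
    tri (Dex u v) (row pex i) (row pex j) (row pex k) = 0 := by
  rw [tri_Dex_S u v _ _ _ (row_pex_supp i) (row_pex_supp j) (row_pex_supp k)]
  have a0 : row pex 0 0 = 1 := by rw [row_pex_0]; simp
  have a1 : row pex 0 1 = 0 := by rw [row_pex_0]; simp
  have a2 : row pex 0 2 = 0 := by rw [row_pex_0]; simp
  have a5 : row pex 0 5 = Polynomial.X := by rw [row_pex_0]; simp
  have a6 : row pex 0 6 = -Polynomial.X ^ 2 := by rw [row_pex_0]; simp
  have b0 : row pex 1 0 = 0 := by rw [row_pex_1]; simp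
  have b1 : row pex 1 1 = 1 := by rw [row_pex_1]; simp
  have b2 : row pex 1 2 = 0 := by rw [row_pex_1]; simp
  have b5 : row pex 1 5 = 0 := by rw [row_pex_1]; simp
  have b6 : row pex 1 6 = Polynomial.X := by rw [row_pex_1]; simp
  have c0 : row pex 2 0 = 0 := by rw [row_pex_2]; simp
  have c1 : row pex 2 1 = 0 := by rw [row_pex_2]; simp
  have c2 : row pex 2 2 = 1 := by rw [row_pex_2]; simp
  have c5 : row pex 2 5 = 0 := by rw [row_pex_2]; simp
  have c6 : row pex 2 6 = 0 := by rw [row_pex_2]; simp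
  fin_cases i <;> fin_cases j <;> fin_cases k <;>
    simp only [Fin.zero_eta, Fin.mk_one, Fin.reduceFinMk, a0, a1, a2, a5, a6, b0, b1, b2, b5, b6,
      c0, c1, c2, c5, c6] <;> ring

theorem isArc_pex (u v : ℤ) :
    IsArc (tO ℚ) (Dex u v) tex (fun q => algebraMap (Polynomial ℚ) (LocO ℚ) (pex q)) := by
  refine ⟨?_, ?_⟩
  · intro i j k
    set φ := IsScalarTower.toAlgHom ℚ (Polynomial ℚ) (LocO ℚ) with hφ
    have hrow : ∀ i, row (fun q => algebraMap (Polynomial ℚ) (LocO ℚ) (pex q)) i =
        fun j => φ (row pex i j) := by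
      intro i
      funext j
      rw [row, row, Pi.add_apply, Pi.add_apply, map_add, bv_apply, bv_apply, tv, tv]
      congr 1
      · split_ifs <;> simp
      · split_ifs
        · simp
        · rfl
    rw [hrow, hrow, hrow, ← tri_map, curve_pex, map_zero]
  · intro q
    obtain ⟨i, k⟩ := q
    by_cases h1 : ((i, k) : Idx) = (0, 2)
    · rw [h1]
      have : algebraMap (Polynomial ℚ) (LocO ℚ) (pex (0, 2)) = tO ℚ := by
        simp [pex, tO]
      rw [this]
      simp [tex]
    · by_cases h2 : ((i, k) : Idx) = (0, 3)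
      · rw [h2]
        have : algebraMap (Polynomial ℚ) (LocO ℚ) (pex (0, 3)) = -tO ℚ ^ 2 := by
          simp [pex, tO]
        rw [this]
        simp only [tex]
        simp
      · by_cases h3 : ((i, k) : Idx) = (1, 3)
        · rw [h3]
          have : algebraMap (Polynomial ℚ) (LocO ℚ) (pex (1, 3)) = tO ℚ := by
            simp [pex, tO]
          rw [this]
          simp [tex]
        · have e1 : pex (i, k) = 0 := by
            simp only [pex]
            rw [if_neg h1, if_neg h2, if_neg h3]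
          have e2 : tex (i, k) = 0 := by
            simp only [tex]
            rw [if_neg h1, if_neg h3]
          simp [e1, e2]

end Pool.Agent.Helper86.CY
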