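import Pool.Agent.Helper86.CY.ChiIrr

/-!
# The iterates of the matrix of the differential (piece CY-E5)
-/

namespace Pool.Agent.Helper86.CY

open MvPolynomial Pool.Agent.Helper76.CY

/-- A vector given by its coordinates. -/
def mkv (a0 a1 a2 a3 a4 a5 a6 b0 b1 b2 b3 b4 b5 b6 c0 c1 c2 c3 c4 c5 c6 : ℚ) : Idx → ℚ := fun q =>
  match q.1.val, q.2.val with
  | 0, 0 => a0
  | 0, 1 => a1
  | 0, 2 => a2
  | 0, 3 => a3
  | 0, 4 => a4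
  | 0, 5 => a5
  | 0, _ => a6
  | 1, 0 => b0
  | 1, 1 => b1
  | 1, 2 => b2
  | 1, 3 => b3
  | 1, 4 => b4
  | 1, 5 => b5
  | 1, _ => b6
  | _, 0 => c0
  | _, 1 => c1
  | _, 2 => c2
  | _, 3 => c3
  | _, 4 => c4
  | _, 5 => c5
  | _, _ => c6

theorem mkv_congr {a0 a1 a2 a3 a4 a5 a6 b0 b1 b2 b3 b4 b5 b6 c0 c1 c2 c3 c4 c5 c6 a0' a1' a2' a3'
    a4' a5' a6' b0' b1' b2' b3' b4' b5' b6' c0' c1' c2' c3' c4' c5' c6' : ℚ} (ha0 : a0 = a0') (ha1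
    : a1 = a1') (ha2 : a2 = a2') (ha3 : a3 = a3') (ha4 : a4 = a4') (ha5 : a5 = a5') (ha6 : a6 =
    a6') (hb0 : b0 = b0') (hb1 : b1 = b1') (hb2 : b2 = b2') (hb3 : b3 = b3') (hb4 : b4 = b4') (hb5
    : b5 = b5') (hb6 : b6 = b6') (hc0 : c0 = c0') (hc1 : c1 = c1') (hc2 : c2 = c2') (hc3 : c3 =
    c3') (hc4 : c4 = c4') (hc5 : c5 = c5') (hc6 : c6 = c6') : mkv a0 a1 a2 a3 a4 a5 a6 b0 b1 b2 b3
    b4 b5 b6 c0 c1 c2 c3 c4 c5 c6 = mkv a0' a1' a2' a3' a4' a5' a6' b0' b1' b2' b3' b4' b5' b6'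
    c0' c1' c2' c3' c4' c5' c6' := by
  subst ha0 ha1 ha2 ha3 ha4 ha5 ha6 hb0 hb1 hb2 hb3
  subst hb4 hb5 hb6 hc0 hc1 hc2 hc3 hc4 hc5 hc6
  rfl

theorem mkv_add (a0 a1 a2 a3 a4 a5 a6 b0 b1 b2 b3 b4 b5 b6 c0 c1 c2 c3 c4 c5 c6 a0' a1' a2' a3'
    a4' a5' a6' b0' b1' b2' b3' b4' b5' b6' c0' c1' c2' c3' c4' c5' c6' : ℚ) : mkv a0 a1 a2 a3 a4
    a5 a6 b0 b1 b2 b3 b4 b5 b6 c0 c1 c2 c3 c4 c5 c6 + mkv a0' a1' a2' a3' a4' a5' a6' b0' b1' b2'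
    b3' b4' b5' b6' c0' c1' c2' c3' c4' c5' c6' = mkv (a0 + a0') (a1 + a1') (a2 + a2') (a3 + a3')
    (a4 + a4') (a5 + a5') (a6 + a6') (b0 + b0') (b1 + b1') (b2 + b2') (b3 + b3') (b4 + b4') (b5 +
    b5') (b6 + b6') (c0 + c0') (c1 + c1') (c2 + c2') (c3 + c3') (c4 + c4') (c5 + c5') (c6 + c6')
    := by
  funext q
  obtain ⟨i, k⟩ := q
  fin_cases i <;> fin_cases k <;> rfl

theorem mkv_smul (c : ℚ) (a0 a1 a2 a3 a4 a5 a6 b0 b1 b2 b3 b4 b5 b6 c0 c1 c2 c3 c4 c5 c6 : ℚ) : c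
    • mkv a0 a1 a2 a3 a4 a5 a6 b0 b1 b2 b3 b4 b5 b6 c0 c1 c2 c3 c4 c5 c6 = mkv (c * a0) (c * a1)
    (c * a2) (c * a3) (c * a4) (c * a5) (c * a6) (c * b0) (c * b1) (c * b2) (c * b3) (c * b4) (c *
    b5) (c * b6) (c * c0) (c * c1) (c * c2) (c * c3) (c * c4) (c * c5) (c * c6) := by
  funext q
  obtain ⟨i, k⟩ := q
  fin_cases i <;> fin_cases k <;> rfl

theorem mkv_zero : mkv 0 0 0 0 0 0 0 0 0 0 0 0 0 0 0 0 0 0 0 0 0 = 0 := by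
  funext q
  obtain ⟨i, k⟩ := q
  fin_cases i <;> fin_cases k <;> rfl

theorem Bfun_mkv (u v a0 a1 a2 a3 a4 a5 a6 b0 b1 b2 b3 b4 b5 b6 c0 c1 c2 c3 c4 c5 c6 : ℚ) : Bfun u
    v (mkv a0 a1 a2 a3 a4 a5 a6 b0 b1 b2 b3 b4 b5 b6 c0 c1 c2 c3 c4 c5 c6) = mkv b1 b2 b3 b4 b5 b6
    (2 * a0 + u * a2 + v * a3 + v * a4 - a6 + u * b4 + u ^ 2 * b5) c1 c2 c3 c4 c5 c6 (2 * u * a0 +
    u ^ 2 * a2 + (u * v + 1) * a3 + u * v * a4 - u * a6 - 2 * c0 - u * c2 - v * c3 - v * c4 + c6)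
    (a4 + u * a5 + 2 * b0 + u * b2 + v * b3 + v * b4 - b6) (-b3 + c4 + u * c5) (2 * u * a0 + u ^ 2
    * a2 + (u * v + 1) * a3 + u * v * a4 - u * a6 - 2 * c0 - u * c2 - v * c3 - v * c4 + c6) (-2 *
    a0 - u * a2 - v * a3 - v * a4 + a6) (-b4 - u * b5) c3 0 := by
  funext q
  obtain ⟨i, k⟩ := q
  fin_cases i <;> fin_cases k <;> rfl

/-- Auxiliary polynomial. -/
noncomputable def y0 (u _v : ℚ) : ℚ := u ^ 2

/-- Auxiliary polynomial. -/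
noncomputable def y1 (u v : ℚ) : ℚ := -u ^ 3 + u * v - 2 * v

/-- Auxiliary polynomial. -/
noncomputable def y2 (u _v : ℚ) : ℚ := -u ^ 2

/-- Auxiliary polynomial. -/
noncomputable def y3 (u v : ℚ) : ℚ := u ^ 4 - u ^ 2 * v + 2 * u ^ 2 + 2 * u * v

/-- Auxiliary polynomial. -/
noncomputable def y4 (u v : ℚ) : ℚ := 2 * u ^ 3 - u ^ 2 - u * v + 2 * v - 2

/-- Auxiliary polynomial. -/
noncomputable def y5 (u v : ℚ) : ℚ := -u ^ 5 + u ^ 3 * v - 4 * u ^ 3 - 2 * u ^ 2 * v + 2 * u ^ 2 +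
      2 * u * v - 4 * v + 4

/-- Auxiliary polynomial. -/
noncomputable def y6 (u v : ℚ) : ℚ := -2 * u ^ 4 + 2 * u ^ 2 * v - 2 * u ^ 2 - 5 * u * v

/-- Auxiliary polynomial. -/
noncomputable def y7 (u _v : ℚ) : ℚ := -2 * u ^ 2

/-- Auxiliary polynomial. -/
noncomputable def y8 (u v : ℚ) : ℚ := -2 * u ^ 3 - u ^ 2 + u * v - 4 * v

/-- Auxiliary polynomial. -/
noncomputable def y9 (u v : ℚ) : ℚ := u ^ 6 - u ^ 4 * v + 6 * u ^ 4 + 2 * u ^ 3 * v - 3 * u ^ 3 -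
      3 * u ^ 2 * v + 4 * u ^ 2 + 9 * u * v - 5 * u

/-- Auxiliary polynomial. -/
noncomputable def y10 (u v : ℚ) : ℚ := 2 * u ^ 5 - 2 * u ^ 3 * v + 6 * u ^ 3 + 4 * u ^ 2 * v - 4 *
      u ^ 2 - 2 * u * v + 4 * v - 4

/-- Auxiliary polynomial. -/
noncomputable def y11 (u v : ℚ) : ℚ := 2 * u ^ 3 + u ^ 2 - u * v + 4 * v

/-- Auxiliary polynomial. -/
noncomputable def y12 (u v : ℚ) : ℚ := 2 * u ^ 4 + 2 * u ^ 3 - 2 * u ^ 2 * v + 5 * u ^ 2 + 3 * u *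
      v + 4 * v

/-- Auxiliary polynomial. -/
noncomputable def y13 (u v : ℚ) : ℚ := -u ^ 7 + u ^ 5 * v - 8 * u ^ 5 - 2 * u ^ 4 * v + 5 * u ^ 4
      + 3 * u ^ 3 * v - 11 * u ^ 3 - 15 * u ^ 2 * v + 13 * u ^ 2 + u * v ^ 2 + 8 * u * v - 4 * v ^
      2 - 8 * v + 8

/-- Auxiliary polynomial. -/
noncomputable def y14 (u v : ℚ) : ℚ := -2 * u ^ 6 + 2 * u ^ 4 * v - 10 * u ^ 4 - 4 * u ^ 3 * v + 3
      * u ^ 3 + 5 * u ^ 2 * v - 4 * u ^ 2 - 12 * u * v + 9 * u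

/-- Auxiliary polynomial. -/
noncomputable def y15 (u _v : ℚ) : ℚ := -2 * u ^ 3 - u

/-- Auxiliary polynomial. -/
noncomputable def y16 (u v : ℚ) : ℚ := -2 * u ^ 4 - 2 * u ^ 3 + 2 * u ^ 2 * v - 5 * u ^ 2 - 3 * u
      * v - 4 * v

/-- Auxiliary polynomial. -/
noncomputable def y17 (u v : ℚ) : ℚ := -2 * u ^ 5 - 2 * u ^ 4 + 2 * u ^ 3 * v - 12 * u ^ 3 - 2 * u
      ^ 2 * v + u * v - 12 * v + 8

/-- Auxiliary polynomial. -/
noncomputable def y18 (u v : ℚ) : ℚ := u ^ 8 - u ^ 6 * v + 10 * u ^ 6 + 2 * u ^ 5 * v - 7 * u ^ 5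
      - 3 * u ^ 4 * v + 21 * u ^ 4 + 23 * u ^ 3 * v - 19 * u ^ 3 - 3 * u ^ 2 * v ^ 2 - 12 * u ^ 2
      * v + 8 * u ^ 2 + 7 * u * v ^ 2 + 20 * u * v - 18 * u + 4 * v ^ 2

/-- Auxiliary polynomial. -/
noncomputable def y19 (u v : ℚ) : ℚ := 2 * u ^ 7 - 2 * u ^ 5 * v + 14 * u ^ 5 + 4 * u ^ 4 * v - 6
      * u ^ 4 - 6 * u ^ 3 * v + 16 * u ^ 3 + 21 * u ^ 2 * v - 18 * u ^ 2 - u * v ^ 2 - 4 * u * v +
      2 * u + 4 * v ^ 2 + 8 * v - 8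

/-- Auxiliary polynomial. -/
noncomputable def y20 (u v : ℚ) : ℚ := 2 * u ^ 4 + u ^ 3 - u ^ 2 * v + 4 * u * v

/-- Auxiliary polynomial. -/
noncomputable def y21 (u v : ℚ) : ℚ := 2 * u ^ 5 + 2 * u ^ 4 - 2 * u ^ 3 * v + 10 * u ^ 3 + 2 * u
      ^ 2 * v - u * v + 12 * v - 8

/-- Auxiliary polynomial. -/
noncomputable def y22 (u _v : ℚ) : ℚ := 2 * u ^ 2

/-- Auxiliary polynomial. -/
noncomputable def y23 (u v : ℚ) : ℚ := 2 * u ^ 6 + 2 * u ^ 5 - 2 * u ^ 4 * v + 16 * u ^ 4 + 2 * u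
      ^ 3 * v + 7 * u ^ 3 - 7 * u ^ 2 * v + 8 * u ^ 2 + 21 * u * v - 10 * u + 12 * v - 8

/-- Auxiliary polynomial. -/
noncomputable def y24 (u v : ℚ) : ℚ := -u ^ 9 + u ^ 7 * v - 12 * u ^ 7 - 2 * u ^ 6 * v + 9 * u ^ 6
      + 3 * u ^ 5 * v - 35 * u ^ 5 - 31 * u ^ 4 * v + 37 * u ^ 4 + 5 * u ^ 3 * v ^ 2 + 8 * u ^ 3 *
      v - 32 * u ^ 3 - 9 * u ^ 2 * v ^ 2 - 47 * u ^ 2 * v + 42 * u ^ 2 - u * v ^ 2 + 20 * u * v -
      12 * u - 20 * v ^ 2 - 8 * v + 16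

/-- Auxiliary polynomial. -/
noncomputable def y25 (u v : ℚ) : ℚ := -2 * u ^ 8 + 2 * u ^ 6 * v - 18 * u ^ 6 - 4 * u ^ 5 * v +
      10 * u ^ 5 + 6 * u ^ 4 * v - 34 * u ^ 4 - 34 * u ^ 3 * v + 23 * u ^ 3 + 4 * u ^ 2 * v ^ 2 +
      18 * u ^ 2 * v - 8 * u ^ 2 - 12 * u * v ^ 2 - 32 * u * v + 24 * u

/-- Auxiliary polynomial. -/
noncomputable def y26 (u v : ℚ) : ℚ := -2 * u ^ 5 - 2 * u ^ 4 + 2 * u ^ 3 * v - 5 * u ^ 3 - 3 * u
      ^ 2 * v + 2 * u ^ 2 - 4 * u * v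

/-- Auxiliary polynomial. -/
noncomputable def y27 (u v : ℚ) : ℚ := -2 * u ^ 6 - 2 * u ^ 5 + 2 * u ^ 4 * v - 14 * u ^ 4 - 2 * u
      ^ 3 * v - 6 * u ^ 3 + 6 * u ^ 2 * v - 8 * u ^ 2 - 17 * u * v + 10 * u - 12 * v + 8

/-- Auxiliary polynomial. -/
noncomputable def y28 (u v : ℚ) : ℚ := -2 * u ^ 7 - 2 * u ^ 6 + 2 * u ^ 5 * v - 20 * u ^ 5 - 2 * u
      ^ 4 * v - 8 * u ^ 4 + 8 * u ^ 3 * v - 34 * u ^ 3 - 25 * u ^ 2 * v + 18 * u ^ 2 + u * v ^ 2 -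
      9 * u * v + 10 * u - 4 * v ^ 2 - 28 * v + 24

/-- Auxiliary polynomial. -/
noncomputable def y29 (u v : ℚ) : ℚ := u ^ 10 - u ^ 8 * v + 14 * u ^ 8 + 2 * u ^ 7 * v - 11 * u ^
      7 - 3 * u ^ 6 * v + 53 * u ^ 6 + 39 * u ^ 5 * v - 63 * u ^ 5 - 7 * u ^ 4 * v ^ 2 + 71 * u ^
      4 + 11 * u ^ 3 * v ^ 2 + 101 * u ^ 3 * v - 68 * u ^ 3 - 12 * u ^ 2 * v ^ 2 - 52 * u ^ 2 * v
      + 39 * u ^ 2 + 56 * u * v ^ 2 + 33 * u * v - 40 * u + 16 * v ^ 2 - 4 * v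

/-- Auxiliary polynomial. -/
noncomputable def y30 (u v : ℚ) : ℚ := 2 * u ^ 9 - 2 * u ^ 7 * v + 22 * u ^ 7 + 4 * u ^ 6 * v - 14
      * u ^ 6 - 6 * u ^ 5 * v + 58 * u ^ 5 + 50 * u ^ 4 * v - 42 * u ^ 4 - 8 * u ^ 3 * v ^ 2 - 20
      * u ^ 3 * v + 42 * u ^ 3 + 18 * u ^ 2 * v ^ 2 + 61 * u ^ 2 * v - 60 * u ^ 2 + 2 * u * v ^ 2
      + 4 * u + 16 * v ^ 2 + 8 * v - 16

/-- Auxiliary polynomial. -/
noncomputable def y31 (u v : ℚ) : ℚ := 2 * u ^ 6 + 2 * u ^ 5 - 2 * u ^ 4 * v + 10 * u ^ 4 + 2 * u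
      ^ 3 * v - 2 * u ^ 3 - u ^ 2 * v - 3 * u ^ 2 + 13 * u * v - 8 * u - 4 * v

/-- Auxiliary polynomial. -/
noncomputable def y32 (u v : ℚ) : ℚ := 2 * u ^ 7 + 2 * u ^ 6 - 2 * u ^ 5 * v + 18 * u ^ 5 + 2 * u
      ^ 4 * v + 6 * u ^ 4 - 6 * u ^ 3 * v + 29 * u ^ 3 + 22 * u ^ 2 * v - 18 * u ^ 2 - u * v ^ 2 +
      5 * u * v - 10 * u + 4 * v ^ 2 + 28 * v - 24

/-- Auxiliary polynomial. -/
noncomputable def y33 (u v : ℚ) : ℚ := 2 * u ^ 8 + 2 * u ^ 7 - 2 * u ^ 6 * v + 24 * u ^ 6 + 2 * u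
      ^ 5 * v + 8 * u ^ 5 - 8 * u ^ 4 * v + 60 * u ^ 4 + 38 * u ^ 3 * v - 2 * u ^ 3 - 4 * u ^ 2 *
      v ^ 2 - 5 * u ^ 2 * v - 2 * u ^ 2 + 10 * u * v ^ 2 + 61 * u * v - 54 * u + 8 * v ^ 2 + 28 *
      v - 24

/-- Auxiliary polynomial. -/
noncomputable def y34 (u v : ℚ) : ℚ := -u ^ 11 + u ^ 9 * v - 16 * u ^ 9 - 2 * u ^ 8 * v + 13 * u ^
      8 + 3 * u ^ 7 * v - 75 * u ^ 7 - 47 * u ^ 6 * v + 97 * u ^ 6 + 9 * u ^ 5 * v ^ 2 - 12 * u ^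
      5 * v - 137 * u ^ 5 - 13 * u ^ 4 * v ^ 2 - 173 * u ^ 4 * v + 148 * u ^ 4 + 30 * u ^ 3 * v ^
      2 + 57 * u ^ 3 * v - 127 * u ^ 3 - 102 * u ^ 2 * v ^ 2 - 91 * u ^ 2 * v + 109 * u ^ 2 + u *
      v ^ 3 - 20 * u * v ^ 2 + 39 * u * v - 32 * u - 4 * v ^ 3 - 64 * v ^ 2 + 4 * v + 32

/-- Auxiliary polynomial. -/
noncomputable def y35 (u v : ℚ) : ℚ := -2 * u ^ 10 + 2 * u ^ 8 * v - 26 * u ^ 8 - 4 * u ^ 7 * v +
      18 * u ^ 7 + 6 * u ^ 6 * v - 90 * u ^ 6 - 66 * u ^ 5 * v + 82 * u ^ 5 + 12 * u ^ 4 * v ^ 2 +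
      8 * u ^ 4 * v - 113 * u ^ 4 - 22 * u ^ 3 * v ^ 2 - 130 * u ^ 3 * v + 92 * u ^ 3 + 13 * u ^ 2
      * v ^ 2 + 48 * u ^ 2 * v - 37 * u ^ 2 - 76 * u * v ^ 2 - 61 * u * v + 64 * u - 8 * v ^ 2 - 4
      * v

/-- Auxiliary polynomial. -/
noncomputable def y36 (u v : ℚ) : ℚ := -2 * u ^ 7 - 2 * u ^ 6 + 2 * u ^ 5 * v - 14 * u ^ 5 - 2 * u
      ^ 4 * v - 4 * u ^ 4 + 6 * u ^ 3 * v - 4 * u ^ 3 - 19 * u ^ 2 * v + 16 * u ^ 2 - 10 * u * v +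
      8 * u + 8 * v

/-- Auxiliary polynomial. -/
noncomputable def y37 (u v : ℚ) : ℚ := -2 * u ^ 8 - 2 * u ^ 7 + 2 * u ^ 6 * v - 22 * u ^ 6 - 2 * u
      ^ 5 * v - 6 * u ^ 5 + 6 * u ^ 4 * v - 50 * u ^ 4 - 36 * u ^ 3 * v + 2 * u ^ 3 + 4 * u ^ 2 *
      v ^ 2 + 4 * u ^ 2 * v + 2 * u ^ 2 - 10 * u * v ^ 2 - 49 * u * v + 46 * u - 8 * v ^ 2 - 28 *
      v + 24

/-- Auxiliary polynomial. -/
noncomputable def y38 (u v : ℚ) : ℚ := -2 * u ^ 5 - 2 * u ^ 4 + 2 * u ^ 3 * v - 10 * u ^ 3 - 2 * u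
      ^ 2 * v + u * v - 12 * v + 8

/-- Auxiliary polynomial. -/
noncomputable def y39 (u v : ℚ) : ℚ := -2 * u ^ 9 - 2 * u ^ 8 + 2 * u ^ 7 * v - 28 * u ^ 7 - 2 * u
      ^ 6 * v - 8 * u ^ 6 + 8 * u ^ 5 * v - 92 * u ^ 5 - 54 * u ^ 4 * v + 6 * u ^ 4 + 8 * u ^ 3 *
      v ^ 2 - 6 * u ^ 3 * v - 71 * u ^ 3 - 12 * u ^ 2 * v ^ 2 - 105 * u ^ 2 * v + 96 * u ^ 2 - 13
      * u * v ^ 2 - 37 * u * v + 38 * u - 36 * v ^ 2 - 52 * v + 56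

/-- Auxiliary polynomial. -/
noncomputable def y40 (u v : ℚ) : ℚ := u ^ 12 - u ^ 10 * v + 18 * u ^ 10 + 2 * u ^ 9 * v - 15 * u
      ^ 9 - 3 * u ^ 8 * v + 101 * u ^ 8 + 55 * u ^ 7 * v - 139 * u ^ 7 - 11 * u ^ 6 * v ^ 2 + 28 *
      u ^ 6 * v + 239 * u ^ 6 + 15 * u ^ 5 * v ^ 2 + 261 * u ^ 5 * v - 298 * u ^ 5 - 52 * u ^ 4 *
      v ^ 2 - 33 * u ^ 4 * v + 292 * u ^ 4 + 168 * u ^ 3 * v ^ 2 + 269 * u ^ 3 * v - 197 * u ^ 3 -
      5 * u ^ 2 * v ^ 3 - 21 * u ^ 2 * v ^ 2 - 160 * u ^ 2 * v + 136 * u ^ 2 + 14 * u * v ^ 3 +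
      228 * u * v ^ 2 + 19 * u * v - 104 * u + 8 * v ^ 3 + 56 * v ^ 2 - 12 * v - 8

/-- Auxiliary polynomial. -/
noncomputable def y41 (u v : ℚ) : ℚ := 2 * u ^ 11 - 2 * u ^ 9 * v + 30 * u ^ 9 + 4 * u ^ 8 * v -
      22 * u ^ 8 - 6 * u ^ 7 * v + 130 * u ^ 7 + 82 * u ^ 6 * v - 138 * u ^ 6 - 16 * u ^ 5 * v ^ 2
      + 12 * u ^ 5 * v + 218 * u ^ 5 + 26 * u ^ 4 * v ^ 2 + 252 * u ^ 4 * v - 167 * u ^ 4 - 44 * u
      ^ 3 * v ^ 2 - 87 * u ^ 3 * v + 144 * u ^ 3 + 161 * u ^ 2 * v ^ 2 + 124 * u ^ 2 * v - 165 * u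
      ^ 2 - u * v ^ 3 + 26 * u * v ^ 2 + 21 * u * v - 8 * u + 4 * v ^ 3 + 56 * v ^ 2 - 4 * v - 32

/-- Auxiliary polynomial. -/
noncomputable def y42 (u v : ℚ) : ℚ := 2 * u ^ 8 + 2 * u ^ 7 - 2 * u ^ 6 * v + 18 * u ^ 6 + 2 * u
      ^ 5 * v + 4 * u ^ 5 - 6 * u ^ 4 * v + 25 * u ^ 4 + 24 * u ^ 3 * v - 30 * u ^ 3 - u ^ 2 * v ^
      2 + 5 * u ^ 2 * v - 15 * u ^ 2 + 4 * u * v ^ 2 + 26 * u * v - 24 * u - 16 * v + 8

/-- Auxiliary polynomial. -/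
noncomputable def y43 (u v : ℚ) : ℚ := 2 * u ^ 9 + 2 * u ^ 8 - 2 * u ^ 7 * v + 26 * u ^ 7 + 2 * u
      ^ 6 * v + 6 * u ^ 6 - 6 * u ^ 5 * v + 78 * u ^ 5 + 52 * u ^ 4 * v - 12 * u ^ 4 - 8 * u ^ 3 *
      v ^ 2 + 12 * u ^ 3 * v + 63 * u ^ 3 + 12 * u ^ 2 * v ^ 2 + 88 * u ^ 2 * v - 86 * u ^ 2 + 13
      * u * v ^ 2 + 25 * u * v - 30 * u + 36 * v ^ 2 + 52 * v - 56

/-- Auxiliary polynomial. -/
noncomputable def y44 (u v : ℚ) : ℚ := 2 * u ^ 6 + 2 * u ^ 5 - 2 * u ^ 4 * v + 14 * u ^ 4 + 2 * u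
      ^ 3 * v + 6 * u ^ 3 - 6 * u ^ 2 * v + 8 * u ^ 2 + 17 * u * v - 10 * u + 12 * v - 8

/-- The iterate number 0. -/
noncomputable def vex0 (_u _v : ℚ) : Idx → ℚ := mkv 0 0 1 0 0 0 0 0 0 0 1 0 0 0 0 0 0 0 0 0 0

/-- The iterate number 1. -/
noncomputable def vex1 (u v : ℚ) : Idx → ℚ := mkv 0 0 1 0 0 0 u 0 0 0 0 0 0 (y0 u v) v (-1) (y0 u
      v) (-u) 0 0 0

/-- The iterate number 2. -/
noncomputable def vex2 (u v : ℚ) : Idx → ℚ := mkv 0 0 0 0 0 (y0 u v) 0 (-1) (y0 u v) (-u) 0 0 0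
      (y1 u v) (y2 u v) 0 (y1 u v) 0 0 (-u) 0

/-- The iterate number 3. -/
noncomputable def vex3 (u v : ℚ) : Idx → ℚ := mkv (y0 u v) (-u) 0 0 0 (y1 u v) 0 0 (y1 u v) 0 0
      (-u) 0 (y3 u v) (y4 u v) (y2 u v) (y3 u v) 0 0 0 0

/-- The iterate number 4. -/
noncomputable def vex4 (u v : ℚ) : Idx → ℚ := mkv (y1 u v) 0 0 (-u) 0 (y3 u v) (y0 u v) (y2 u v)
      (y3 u v) 0 0 0 0 (y5 u v) (y6 u v) 0 (y5 u v) (y7 u v) u 0 0

/-- The iterate number 5. -/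
noncomputable def vex5 (u v : ℚ) : Idx → ℚ := mkv (y3 u v) 0 0 0 0 (y5 u v) (y8 u v) 0 (y5 u v)
      (y7 u v) u 0 0 (y9 u v) (y10 u v) u (y9 u v) (y11 u v) 0 (y7 u v) 0

/-- The iterate number 6. -/
noncomputable def vex6 (u v : ℚ) : Idx → ℚ := mkv (y5 u v) (y7 u v) u 0 0 (y9 u v) (y12 u v) u (y9
      u v) (y11 u v) 0 (y7 u v) 0 (y13 u v) (y14 u v) (y15 u v) (y13 u v) (y16 u v) 0 (y11 u v) 0

/-- The iterate number 7. -/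
noncomputable def vex7 (u v : ℚ) : Idx → ℚ := mkv (y9 u v) (y11 u v) 0 (y7 u v) 0 (y13 u v) (y17 u
      v) (y15 u v) (y13 u v) (y16 u v) 0 (y11 u v) 0 (y18 u v) (y19 u v) (y20 u v) (y18 u v) (y21
      u v) (y22 u v) (y16 u v) 0

/-- The iterate number 8. -/
noncomputable def vex8 (u v : ℚ) : Idx → ℚ := mkv (y13 u v) (y16 u v) 0 (y11 u v) 0 (y18 u v) (y23
      u v) (y20 u v) (y18 u v) (y21 u v) (y22 u v) (y16 u v) 0 (y24 u v) (y25 u v) (y26 u v) (y24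
      u v) (y27 u v) (y8 u v) (y21 u v) 0

/-- The iterate number 9. -/
noncomputable def vex9 (u v : ℚ) : Idx → ℚ := mkv (y18 u v) (y21 u v) (y22 u v) (y16 u v) 0 (y24 u
      v) (y28 u v) (y26 u v) (y24 u v) (y27 u v) (y8 u v) (y21 u v) 0 (y29 u v) (y30 u v) (y31 u
      v) (y29 u v) (y32 u v) (y12 u v) (y27 u v) 0

/-- The iterate number 10. -/
noncomputable def vex10 (u v : ℚ) : Idx → ℚ := mkv (y24 u v) (y27 u v) (y8 u v) (y21 u v) 0 (y29 u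
      v) (y33 u v) (y31 u v) (y29 u v) (y32 u v) (y12 u v) (y27 u v) 0 (y34 u v) (y35 u v) (y36 u
      v) (y34 u v) (y37 u v) (y38 u v) (y32 u v) 0

/-- The iterate number 11. -/
noncomputable def vex11 (u v : ℚ) : Idx → ℚ := mkv (y29 u v) (y32 u v) (y12 u v) (y27 u v) 0 (y34
      u v) (y39 u v) (y36 u v) (y34 u v) (y37 u v) (y38 u v) (y32 u v) 0 (y40 u v) (y41 u v) (y42
      u v) (y40 u v) (y43 u v) (y44 u v) (y37 u v) 0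

theorem step0 (u v : ℚ) : Bfun u v (vex0 u v) = vex1 u v := by
  rw [vex0, vex1, Bfun_mkv]
  apply mkv_congr
  · rfl
  · rfl
  · rfl
  · rfl
  · rfl
  · rfl
  · ring
  · rfl
  · rfl
  · rfl
  · rfl
  · rfl
  · rfl
  · simp only [y0]
    ring
  · ring
  · ring
  · simp only [y0]
    ring
  · ring
  · ring
  · rfl
  · rfl

theorem step1 (u v : ℚ) : Bfun u v (vex1 u v) = vex2 u v := by
  rw [vex1, vex2, Bfun_mkv]
  apply mkv_congr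
  · rfl
  · rfl
  · rfl
  · rfl
  · rfl
  · rfl
  · ring
  · rfl
  · rfl
  · rfl
  · rfl
  · rfl
  · rfl
  · simp only [y0, y1]
    ring
  · simp only [y0, y2]
    ring
  · ring
  · simp only [y0, y1]
    ring
  · ring
  · ring
  · rfl
  · rfl

theorem step2 (u v : ℚ) : Bfun u v (vex2 u v) = vex3 u v := by
  rw [vex2, vex3, Bfun_mkv]
  apply mkv_congr
  · rfl
  · rfl
  · rfl
  · rfl
  · rfl
  · rfl
  · ring
  · rfl
  · rfl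
  · rfl
  · rfl
  · rfl
  · rfl
  · simp only [y1, y2, y3]
    ring
  · simp only [y0, y1, y4]
    ring
  · simp only [y2]
    ring
  · simp only [y1, y2, y3]
    ring
  · ring
  · ring
  · rfl
  · rfl

theorem step3 (u v : ℚ) : Bfun u v (vex3 u v) = vex4 u v := by
  rw [vex3, vex4, Bfun_mkv]
  apply mkv_congr
  · rfl
  · rfl
  · rfl
  · rfl
  · rfl
  · rfl
  · simp only [y0]
    ring
  · rfl
  · rfl
  · rfl
  · rfl
  · rfl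
  · rfl
  · simp only [y0, y3, y4, y5]
    ring
  · simp only [y1, y3, y6]
    ring
  · ring
  · simp only [y0, y3, y4, y5]
    ring
  · simp only [y0, y7]
    ring
  · ring
  · rfl
  · rfl

theorem step4 (u v : ℚ) : Bfun u v (vex4 u v) = vex5 u v := by
  rw [vex4, vex5, Bfun_mkv]
  apply mkv_congr
  · rfl
  · rfl
  · rfl
  · rfl
  · rfl
  · rfl
  · simp only [y0, y1, y8]
    ring
  · rfl
  · rfl
  · rfl
  · rfl
  · rfl
  · rfl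
  · simp only [y0, y1, y5, y6, y7, y9]
    ring
  · simp only [y2, y3, y5, y10]
    ring
  · ring
  · simp only [y0, y1, y5, y6, y7, y9]
    ring
  · simp only [y0, y1, y11]
    ring
  · ring
  · rfl
  · rfl

theorem step5 (u v : ℚ) : Bfun u v (vex5 u v) = vex6 u v := by
  rw [vex5, vex6, Bfun_mkv]
  apply mkv_congr
  · rfl
  · rfl
  · rfl
  · rfl
  · rfl
  · rfl
  · simp only [y3, y8, y12]
    ring
  · rfl
  · rfl
  · rfl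
  · rfl
  · rfl
  · rfl
  · simp only [y3, y8, y9, y10, y11, y13]
    ring
  · simp only [y5, y7, y9, y14]
    ring
  · simp only [y7, y15]
    ring
  · simp only [y3, y8, y9, y10, y11, y13]
    ring
  · simp only [y3, y8, y16]
    ring
  · ring
  · rfl
  · rfl

theorem step6 (u v : ℚ) : Bfun u v (vex6 u v) = vex7 u v := by
  rw [vex6, vex7, Bfun_mkv]
  apply mkv_congr
  · rfl
  · rfl
  · rfl
  · rfl
  · rfl
  · rfl
  · simp only [y5, y7, y12, y17]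
    ring
  · rfl
  · rfl
  · rfl
  · rfl
  · rfl
  · rfl
  · simp only [y5, y12, y13, y14, y16, y18]
    ring
  · simp only [y7, y9, y11, y13, y19]
    ring
  · simp only [y11, y20]
    ring
  · simp only [y5, y12, y13, y14, y16, y18]
    ring
  · simp only [y5, y12, y21]
    ring
  · simp only [y7, y22]
    ring
  · rfl
  · rfl

theorem step7 (u v : ℚ) : Bfun u v (vex7 u v) = vex8 u v := by
  rw [vex7, vex8, Bfun_mkv]
  apply mkv_congr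
  · rfl
  · rfl
  · rfl
  · rfl
  · rfl
  · rfl
  · simp only [y7, y9, y11, y17, y23]
    ring
  · rfl
  · rfl
  · rfl
  · rfl
  · rfl
  · rfl
  · simp only [y7, y9, y17, y18, y19, y21, y22, y24]
    ring
  · simp only [y11, y13, y15, y16, y18, y25]
    ring
  · simp only [y16, y22, y26]
    ring
  · simp only [y7, y9, y17, y18, y19, y21, y22, y24]
    ring
  · simp only [y7, y9, y17, y27]
    ring
  · simp only [y8, y11]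
    ring
  · rfl
  · rfl

theorem step8 (u v : ℚ) : Bfun u v (vex8 u v) = vex9 u v := by
  rw [vex8, vex9, Bfun_mkv]
  apply mkv_congr
  · rfl
  · rfl
  · rfl
  · rfl
  · rfl
  · rfl
  · simp only [y11, y13, y16, y23, y28]
    ring
  · rfl
  · rfl
  · rfl
  · rfl
  · rfl
  · rfl
  · simp only [y8, y11, y13, y23, y24, y25, y27, y29]
    ring
  · simp only [y16, y18, y20, y21, y22, y24, y30]
    ring
  · simp only [y8, y21, y22, y31]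
    ring
  · simp only [y8, y11, y13, y23, y24, y25, y27, y29]
    ring
  · simp only [y11, y13, y23, y32]
    ring
  · simp only [y12, y16]
    ring
  · rfl
  · rfl

theorem step9 (u v : ℚ) : Bfun u v (vex9 u v) = vex10 u v := by
  rw [vex9, vex10, Bfun_mkv]
  apply mkv_congr
  · rfl
  · rfl
  · rfl
  · rfl
  · rfl
  · rfl
  · simp only [y16, y18, y21, y22, y28, y33]
    ring
  · rfl
  · rfl
  · rfl
  · rfl
  · rfl
  · rfl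
  · simp only [y12, y16, y18, y22, y28, y29, y30, y32, y34]
    ring
  · simp only [y8, y21, y24, y26, y27, y29, y35]
    ring
  · simp only [y8, y12, y27, y36]
    ring
  · simp only [y12, y16, y18, y22, y28, y29, y30, y32, y34]
    ring
  · simp only [y16, y18, y22, y28, y37]
    ring
  · simp only [y21, y38]
    ring
  · rfl
  · rfl

theorem step10 (u v : ℚ) : Bfun u v (vex10 u v) = vex11 u v := by
  rw [vex10, vex11, Bfun_mkv]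
  apply mkv_congr
  · rfl
  · rfl
  · rfl
  · rfl
  · rfl
  · rfl
  · simp only [y8, y21, y24, y27, y33, y39]
    ring
  · rfl
  · rfl
  · rfl
  · rfl
  · rfl
  · rfl
  · simp only [y8, y21, y24, y33, y34, y35, y37, y38, y40]
    ring
  · simp only [y12, y27, y29, y31, y32, y34, y41]
    ring
  · simp only [y12, y32, y38, y42]
    ring
  · simp only [y8, y21, y24, y33, y34, y35, y37, y38, y40]
    ring
  · simp only [y8, y21, y24, y33, y43]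
    ring
  · simp only [y27, y44]
    ring
  · rfl
  · rfl

/-- The linear map of the differential. -/
noncomputable def Blin (u v : ℚ) : (Idx → ℚ) →ₗ[ℚ] (Idx → ℚ) where
  toFun := Bfun u v
  map_add' a b := by
    funext q
    obtain ⟨i, k⟩ := q
    fin_cases i <;> fin_cases k <;> simp only [Bfun, Pi.add_apply] <;> ring
  map_smul' c a := by
    funext q
    obtain ⟨i, k⟩ := q
    fin_cases i <;> fin_cases k <;>
      simp only [Bfun, Pi.smul_apply, smul_eq_mul, RingHom.id_apply] <;> ring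

theorem tex_eq (u v : ℚ) : tex = vex0 u v := by
  funext q
  obtain ⟨i, k⟩ := q
  fin_cases i <;> fin_cases k <;> simp [tex, vex0, mkv]

theorem pow0 (u v : ℚ) : (Blin u v ^ 0) tex = vex0 u v := by
  rw [pow_zero]
  exact tex_eq u v

theorem pow1 (u v : ℚ) : (Blin u v ^ 1) tex = vex1 u v := by
  rw [pow_succ', Module.End.mul_apply, pow0]
  exact step0 u v

theorem pow2 (u v : ℚ) : (Blin u v ^ 2) tex = vex2 u v := by
  rw [pow_succ', Module.End.mul_apply, pow1]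
  exact step1 u v

theorem pow3 (u v : ℚ) : (Blin u v ^ 3) tex = vex3 u v := by
  rw [pow_succ', Module.End.mul_apply, pow2]
  exact step2 u v

theorem pow4 (u v : ℚ) : (Blin u v ^ 4) tex = vex4 u v := by
  rw [pow_succ', Module.End.mul_apply, pow3]
  exact step3 u v

theorem pow5 (u v : ℚ) : (Blin u v ^ 5) tex = vex5 u v := by
  rw [pow_succ', Module.End.mul_apply, pow4]
  exact step4 u v

theorem pow6 (u v : ℚ) : (Blin u v ^ 6) tex = vex6 u v := by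
  rw [pow_succ', Module.End.mul_apply, pow5]
  exact step5 u v

theorem pow7 (u v : ℚ) : (Blin u v ^ 7) tex = vex7 u v := by
  rw [pow_succ', Module.End.mul_apply, pow6]
  exact step6 u v

theorem pow8 (u v : ℚ) : (Blin u v ^ 8) tex = vex8 u v := by
  rw [pow_succ', Module.End.mul_apply, pow7]
  exact step7 u v

theorem pow9 (u v : ℚ) : (Blin u v ^ 9) tex = vex9 u v := by
  rw [pow_succ', Module.End.mul_apply, pow8]
  exact step8 u v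

theorem pow10 (u v : ℚ) : (Blin u v ^ 10) tex = vex10 u v := by
  rw [pow_succ', Module.End.mul_apply, pow9]
  exact step9 u v

theorem pow11 (u v : ℚ) : (Blin u v ^ 11) tex = vex11 u v := by
  rw [pow_succ', Module.End.mul_apply, pow10]
  exact step10 u v

theorem chi_sum (u v : ℚ) : vex11 u v + (u + 1 : ℚ) • vex10 u v + (u - 2 : ℚ) • vex9 u v + (-2 :
    ℚ) • vex8 u v + (u - v : ℚ) • vex7 u v + (u * v - u ^ 2 : ℚ) • vex6 u v + (-3 * u - 2 * v : ℚ)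
    • vex5 u v + (-3 * u ^ 2 + 2 * u * v - 2 * v + 2 : ℚ) • vex4 u v + (-6 * u : ℚ) • vex3 u v +
    (4 * v - 2 * u ^ 2 : ℚ) • vex2 u v + (8 : ℚ) • vex1 u v + (-8 : ℚ) • vex0 u v = 0 := by
  rw [← mkv_zero]
  simp only [vex0, vex1, vex2, vex3, vex4, vex5, vex6, vex7, vex8, vex9, vex10, vex11, mkv_smul,
      mkv_add]
  apply mkv_congr
  · simp only [y0, y1, y3, y5, y9, y13, y18, y24, y29]
    ring
  · simp only [y7, y11, y16, y21, y27, y32]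
    ring
  · simp only [y8, y12, y22]
    ring
  · simp only [y7, y11, y16, y21, y27]
    ring
  · ring
  · simp only [y0, y1, y3, y5, y9, y13, y18, y24, y29, y34]
    ring
  · simp only [y0, y8, y12, y17, y23, y28, y33, y39]
    ring
  · simp only [y2, y15, y20, y26, y31, y36]
    ring
  · simp only [y0, y1, y3, y5, y9, y13, y18, y24, y29, y34]
    ring
  · simp only [y7, y11, y16, y21, y27, y32, y37]
    ring
  · simp only [y8, y12, y22, y38]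
    ring
  · simp only [y7, y11, y16, y21, y27, y32]
    ring
  · ring
  · simp only [y0, y1, y3, y5, y9, y13, y18, y24, y29, y34, y40]
    ring
  · simp only [y2, y4, y6, y10, y14, y19, y25, y30, y35, y41]
    ring
  · simp only [y2, y15, y20, y26, y31, y36, y42]
    ring
  · simp only [y0, y1, y3, y5, y9, y13, y18, y24, y29, y34, y40]
    ring
  · simp only [y7, y11, y16, y21, y27, y32, y37, y43]
    ring
  · simp only [y8, y12, y22, y38, y44]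
    ring
  · simp only [y7, y11, y16, y21, y27, y32, y37]
    ring
  · ring

theorem aeval_chiQ_apply (u v : ℤ) (B : (Idx → ℚ) →ₗ[ℚ] (Idx → ℚ)) (τ : Idx → ℚ) :
    Polynomial.aeval B (chiQ u v) τ = (B ^ 11) τ + ((u : ℚ) + 1) • (B ^ 10) τ +
      ((u : ℚ) - 2) • (B ^ 9) τ + (-2 : ℚ) • (B ^ 8) τ + ((u : ℚ) - v) • (B ^ 7) τ +
      ((u : ℚ) * v - u ^ 2) • (B ^ 6) τ + (-3 * (u : ℚ) - 2 * v) • (B ^ 5) τ +
      (-3 * (u : ℚ) ^ 2 + 2 * u * v - 2 * v + 2) • (B ^ 4) τ + (-6 * (u : ℚ)) • (B ^ 3) τ +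
      (4 * (v : ℚ) - 2 * u ^ 2) • (B ^ 2) τ + (8 : ℚ) • (B ^ 1) τ + (-8 : ℚ) • (B ^ 0) τ := by
  have h : chiQ u v = Polynomial.X ^ 11 + Polynomial.C ((u : ℚ) + 1) * Polynomial.X ^ 10 +
    Polynomial.C ((u : ℚ) - 2) * Polynomial.X ^ 9 + Polynomial.C (-2) * Polynomial.X ^ 8 +
    Polynomial.C ((u : ℚ) - v) * Polynomial.X ^ 7 +
    Polynomial.C ((u : ℚ) * v - u ^ 2) * Polynomial.X ^ 6 +
    Polynomial.C (-3 * (u : ℚ) - 2 * v) * Polynomial.X ^ 5 +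
    Polynomial.C (-3 * (u : ℚ) ^ 2 + 2 * u * v - 2 * v + 2) * Polynomial.X ^ 4 +
    Polynomial.C (-6 * (u : ℚ)) * Polynomial.X ^ 3 +
    Polynomial.C (4 * (v : ℚ) - 2 * u ^ 2) * Polynomial.X ^ 2 +
    Polynomial.C 8 * Polynomial.X ^ 1 + Polynomial.C (-8) * Polynomial.X ^ 0 := by
    rw [chiQ, chiZ]
    simp only [Polynomial.map_add, Polynomial.map_mul, Polynomial.map_pow, Polynomial.map_X,
      Polynomial.map_C]
    simp only [eq_intCast]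
    push_cast
    simp only [pow_zero, mul_one, pow_one]
  have hadd : ∀ p q : Polynomial ℚ, Polynomial.aeval B (p + q) τ =
      Polynomial.aeval B p τ + Polynomial.aeval B q τ := by
    intro p q
    rw [map_add, LinearMap.add_apply]
  have ht : ∀ (c : ℚ) (k : ℕ), Polynomial.aeval B (Polynomial.C c * Polynomial.X ^ k) τ =
      c • (B ^ k) τ := by
    intro c k
    rw [map_mul, map_pow, Polynomial.aeval_X, Polynomial.aeval_C, Module.End.mul_apply,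
      Module.algebraMap_end_apply]
  have h11 : Polynomial.aeval B ((Polynomial.X : Polynomial ℚ) ^ 11) τ = (B ^ 11) τ := by
    rw [map_pow, Polynomial.aeval_X]
  rw [h]
  simp only [hadd, ht, h11]

theorem exists_Bex (u v : ℤ) : ∃ B : (Idx → ℚ) →ₗ[ℚ] (Idx → ℚ), (∀ τ, B τ = Bfun u v τ) ∧
    Polynomial.aeval B (chiQ u v) tex = 0 := by
  refine ⟨Blin u v, fun τ => rfl, ?_⟩
  rw [aeval_chiQ_apply, pow0, pow1, pow2, pow3, pow4, pow5, pow6, pow7, pow8, pow9, pow10, pow11]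
  exact chi_sum u v

end Pool.Agent.Helper86.CY
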